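import Mathlib

/-!
# Counting occupied arcs of the unit circle
-/

namespace Pool.Agent.H85.ZI

open Complex Metric Set Finset

/-- The distance condition of arcs to `X`. -/
def KC (c : ℝ) (X : Finset ℂ) : Prop :=
  ∀ a b : ℝ, a < b → b - a ≤ 2 * Real.pi → ∃ t ∈ Set.Icc a b, ∀ x ∈ X,
    c * (b - a) ≤ ‖exp (t * I) - x‖

/-- The left end point of the arc `j` of level `k`. -/
noncomputable def nd (B k j : ℕ) : ℂ := exp ((2 * Real.pi * j / B ^ k : ℝ) * I)

/-- The scale of level `k`. -/
noncomputable def sc (B k : ℕ) : ℝ := ((B : ℝ) ^ k)⁻¹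

/-- The arc `j` of level `k` is occupied. -/
def Occ (B : ℕ) (X : Finset ℂ) (k j : ℕ) : Prop := ∃ x ∈ X, ‖x - nd B k j‖ ≤ 8 * sc B k

open Classical in
/-- The occupied arcs of level `k`. -/
noncomputable def W (B : ℕ) (X : Finset ℂ) (k : ℕ) : Finset ℕ :=
  (Finset.range (B ^ k)).filter (Occ B X k)

lemma norm_exp_sub_eq (a b : ℝ) :
    ‖exp (a * I) - exp (b * I)‖ = 2 * |Real.sin ((a - b) / 2)| := by
  have h1 : exp (a * I) - exp (b * I) = exp (b * I) * (exp (I * ((a - b : ℝ) : ℂ)) - 1) := by
    rw [mul_sub, ← Complex.exp_add]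
    congr 1
    · congr 1
      push_cast
      ring
    · ring
  rw [h1, norm_mul, Complex.norm_exp_ofReal_mul_I, one_mul,
    Complex.norm_exp_I_mul_ofReal_sub_one]
  simp [abs_mul]

lemma norm_exp_sub_le (a b : ℝ) : ‖exp (a * I) - exp (b * I)‖ ≤ |a - b| := by
  rw [norm_exp_sub_eq]
  have h := Real.abs_sin_le_abs (x := (a - b) / 2)
  rw [abs_div, abs_two] at h
  linarith

lemma sc_pos {B : ℕ} (hB : 0 < B) (k : ℕ) : 0 < sc B k := by
  unfold sc
  positivity

lemma sc_zero (B : ℕ) : sc B 0 = 1 := by simp [sc]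

lemma sc_succ {B : ℕ} (k : ℕ) : sc B (k + 1) = sc B k / B := by
  unfold sc
  rw [pow_succ, mul_inv]
  rfl

lemma sc_anti {B : ℕ} (hB : 1 ≤ B) {k l : ℕ} (h : k ≤ l) : sc B l ≤ sc B k := by
  unfold sc
  have hB' : (1 : ℝ) ≤ B := by exact_mod_cast hB
  exact inv_anti₀ (by positivity) (pow_le_pow_right₀ hB' h)

lemma norm_nd (B k j : ℕ) : ‖nd B k j‖ = 1 := by
  unfold nd
  exact Complex.norm_exp_ofReal_mul_I _

/-- The distance of the end point of an arc to that of a descendant. -/
lemma nd_anc {B : ℕ} (hB : 1 ≤ B) (m d j : ℕ) :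
    ‖nd B (m + d) j - nd B m (j / B ^ d)‖ ≤ 2 * Real.pi * sc B m := by
  unfold nd
  refine (norm_exp_sub_le _ _).trans ?_
  have hB' : (0 : ℝ) < B := by exact_mod_cast hB
  have hBd : (0 : ℕ) < B ^ d := by positivity
  have h1 : (2 * Real.pi * j / B ^ (m + d) : ℝ) - 2 * Real.pi * ((j / B ^ d : ℕ) : ℝ) / B ^ m =
      2 * Real.pi * sc B m * (((j : ℝ) / B ^ d) - ((j / B ^ d : ℕ) : ℝ)) := by
    unfold sc
    rw [pow_add]
    field_simp
  rw [h1, abs_mul, abs_of_nonneg (a := 2 * Real.pi * sc B m)
    (by have := sc_pos hB m; positivity)]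
  have h2 : |((j : ℝ) / B ^ d) - ((j / B ^ d : ℕ) : ℝ)| ≤ 1 := by
    have h3 : ((j / B ^ d : ℕ) : ℝ) ≤ (j : ℝ) / B ^ d := by
      have := Nat.cast_div_le (α := ℝ) (m := j) (n := B ^ d)
      simpa using this
    have h4 : (j : ℝ) / B ^ d < ((j / B ^ d : ℕ) : ℝ) + 1 := by
      rw [div_lt_iff₀ (by positivity)]
      have := Nat.lt_div_mul_add (a := j) hBd
      have h5 : j < (j / B ^ d + 1) * B ^ d := by
        rw [add_mul, one_mul]; exact this
      exact_mod_cast h5
    rw [abs_of_nonneg (by linarith)]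
    linarith
  have h3 := sc_pos hB m
  have h4 : 0 ≤ 2 * Real.pi * sc B m := by positivity
  nlinarith

lemma occ_parent {B : ℕ} (hB : 5 ≤ B) {X : Finset ℂ} {k j : ℕ} (h : Occ B X (k + 1) j) :
    Occ B X k (j / B) := by
  obtain ⟨x, hx, hxn⟩ := h
  refine ⟨x, hx, ?_⟩
  have h1 := nd_anc (B := B) (by omega) k 1 j
  rw [pow_one] at h1
  have h2 : ‖x - nd B k (j / B)‖ ≤ ‖x - nd B (k + 1) j‖ + ‖nd B (k + 1) j - nd B k (j / B)‖ := by
    have : x - nd B k (j / B) = (x - nd B (k + 1) j) + (nd B (k + 1) j - nd B k (j / B)) := by ring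
    rw [this]
    exact norm_add_le _ _
  have h3 : sc B (k + 1) ≤ sc B k / 5 := by
    rw [sc_succ]
    have hB' : (5 : ℝ) ≤ B := by exact_mod_cast hB
    have := sc_pos (B := B) (by omega) k
    exact div_le_div_of_nonneg_left this.le (by norm_num) hB'
  have h4 := Real.pi_lt_d2
  have h5 := sc_pos (B := B) (by omega) k
  nlinarith

lemma exists_free_child {c : ℝ} {B : ℕ} (hB : 5 ≤ B) (hcB : 3 ≤ c * B)
    {X : Finset ℂ} (hK : KC c X) (k j : ℕ) :
    ∃ i < B, ¬ Occ B X (k + 1) (B * j + i) := by
  have hB' : (5 : ℝ) ≤ B := by exact_mod_cast hB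
  have hB0 : (0 : ℝ) < B := by linarith
  have hpi := Real.pi_pos
  have hs := sc_pos (B := B) (by omega) k
  have hs1 := sc_pos (B := B) (by omega) (k + 1)
  set a : ℝ := 2 * Real.pi * j / B ^ k with ha
  set b : ℝ := 2 * Real.pi * (j + 1) / B ^ k with hb
  have hab : b - a = 2 * Real.pi * sc B k := by
    rw [ha, hb]; unfold sc; field_simp; ring
  have hab0 : 0 < b - a := by rw [hab]; positivity
  have hsc1 : sc B k ≤ 1 := by
    rw [← sc_zero B]; exact sc_anti (by omega) (Nat.zero_le _)
  obtain ⟨t, ⟨ht1, ht2⟩, htX⟩ := hK a b (by linarith) (by rw [hab]; nlinarith)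
  set y : ℝ := (t - a) * B ^ (k + 1) / (2 * Real.pi) with hy
  have hy0 : 0 ≤ y := by
    have : 0 ≤ t - a := by linarith
    positivity
  have hyB : y ≤ B := by
    rw [hy, div_le_iff₀ (by positivity)]
    have h1 : t - a ≤ 2 * Real.pi * sc B k := by linarith
    calc (t - a) * (B : ℝ) ^ (k + 1) ≤ (2 * Real.pi * sc B k) * (B : ℝ) ^ (k + 1) := by gcongr
      _ = B * (2 * Real.pi) := by unfold sc; rw [pow_succ]; field_simp
  set i : ℕ := min ⌊y⌋₊ (B - 1) with hi
  have hiB : i < B := by
    have : i ≤ B - 1 := min_le_right _ _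
    omega
  have hiy : |y - i| ≤ 1 := by
    rcases le_or_gt ⌊y⌋₊ (B - 1) with h | h
    · rw [hi, min_eq_left h]
      have h1 := Nat.floor_le hy0
      have h2 := Nat.lt_floor_add_one y
      rw [abs_of_nonneg (by linarith)]
      linarith
    · rw [hi, min_eq_right h.le]
      have h1 : (B : ℝ) ≤ ⌊y⌋₊ := by
        have : B ≤ ⌊y⌋₊ := by omega
        exact_mod_cast this
      have h2 := Nat.floor_le hy0
      have h3 : ((B - 1 : ℕ) : ℝ) = B - 1 := by
        have : 1 ≤ B := by omega
        push_cast [this]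
        ring
      rw [h3, abs_of_nonneg (by linarith)]
      linarith
  refine ⟨i, hiB, ?_⟩
  rintro ⟨x, hx, hxn⟩
  have h1 := htX x hx
  have h2 : ‖exp (t * I) - nd B (k + 1) (B * j + i)‖ ≤ 2 * Real.pi * sc B (k + 1) := by
    unfold nd
    refine (norm_exp_sub_le _ _).trans ?_
    have h3 : t - 2 * Real.pi * ((B * j + i : ℕ) : ℝ) / B ^ (k + 1) =
        2 * Real.pi * sc B (k + 1) * (y - i) := by
      rw [hy, ha]
      unfold sc
      push_cast
      rw [pow_succ]
      field_simp
      ring
    rw [h3, abs_mul, abs_of_nonneg (a := 2 * Real.pi * sc B (k + 1)) (by positivity)]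
    have : 0 ≤ 2 * Real.pi * sc B (k + 1) := by positivity
    nlinarith
  have h3 : ‖exp (t * I) - x‖ ≤ ‖exp (t * I) - nd B (k + 1) (B * j + i)‖ +
      ‖x - nd B (k + 1) (B * j + i)‖ := by
    have : exp (t * I) - x = (exp (t * I) - nd B (k + 1) (B * j + i)) -
      (x - nd B (k + 1) (B * j + i)) := by ring
    rw [this]
    exact norm_sub_le _ _
  rw [hab] at h1
  have h4 : sc B k = sc B (k + 1) * B := by rw [sc_succ]; field_simp
  rw [h4] at h1
  have h5 := Real.pi_gt_d2
  have h6 := Real.pi_lt_d2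
  have h7 : c * (2 * Real.pi * (sc B (k + 1) * B)) = (c * B) * (2 * Real.pi) * sc B (k + 1) := by
    ring
  have h8 : 3 * (2 * Real.pi) * sc B (k + 1) ≤ (c * B) * (2 * Real.pi) * sc B (k + 1) := by
    gcongr
  nlinarith

open Classical in
lemma card_desc {c : ℝ} {B : ℕ} (hB : 5 ≤ B) (hcB : 3 ≤ c * B)
    {X : Finset ℂ} (hK : KC c X) (m d j0 : ℕ) :
    ((W B X (m + d)).filter (fun j => j / B ^ d = j0)).card ≤ (B - 1) ^ d := by
  induction d with
  | zero =>
    simp only [pow_zero, Nat.div_one, add_zero]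
    calc _ ≤ ({j0} : Finset ℕ).card := by
          apply Finset.card_le_card
          intro j hj
          simp only [Finset.mem_filter] at hj
          simp [hj.2]
      _ = 1 := by simp
  | succ d ih =>
    have hmap : ∀ j ∈ (W B X (m + (d + 1))).filter (fun j => j / B ^ (d + 1) = j0),
        j / B ∈ (W B X (m + d)).filter (fun j => j / B ^ d = j0) := by
      intro j hj
      simp only [Finset.mem_filter, W, Finset.mem_range] at hj ⊢
      obtain ⟨⟨h1, h2⟩, h3⟩ := hj
      refine ⟨⟨?_, ?_⟩, ?_⟩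
      · rw [Nat.div_lt_iff_lt_mul (by omega)]
        calc j < B ^ (m + (d + 1)) := h1
          _ = B ^ (m + d) * B := by ring
      · exact occ_parent hB h2
      · rw [Nat.div_div_eq_div_mul, ← h3, pow_succ, mul_comm]
    have := Finset.card_le_mul_card_image_of_maps_to hmap (B - 1) (by
      intro j' hj'
      obtain ⟨i, hi, hfree⟩ := exists_free_child hB hcB hK (m + d) j'
      calc _ ≤ ((Finset.Ico (B * j') (B * j' + B)).erase (B * j' + i)).card := by
            apply Finset.card_le_card
            intro j hj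
            simp only [Finset.mem_filter, W, Finset.mem_range] at hj
            obtain ⟨⟨⟨h1, h2⟩, h3⟩, h4⟩ := hj
            rw [Finset.mem_erase, Finset.mem_Ico]
            refine ⟨?_, ?_, ?_⟩
            · rintro rfl
              exact hfree h2
            · rw [← h4]; exact Nat.mul_div_le j B
            · rw [← h4]
              have := Nat.lt_mul_div_succ j (b := B) (by omega)
              calc j < B * (j / B + 1) := this
                _ = B * (j / B) + B := by ring
        _ = B - 1 := by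
            rw [Finset.card_erase_of_mem]
            · simp
            · rw [Finset.mem_Ico]; constructor <;> omega)
    calc _ ≤ _ := this
      _ ≤ (B - 1) * (B - 1) ^ d := by gcongr
      _ = (B - 1) ^ (d + 1) := by ring

lemma four_mul_le_norm_sub {n j j' : ℕ} (hn : 0 < n) (h : j ≤ j') (h' : j' ≤ j + n) :
    4 * min ((j' - j : ℕ) : ℝ) ((j + n - j' : ℕ) : ℝ) / n ≤
      ‖exp ((2 * Real.pi * j' / n : ℝ) * I) - exp ((2 * Real.pi * j / n : ℝ) * I)‖ := by
  have hn' : (0 : ℝ) < n := by exact_mod_cast hn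
  have hpi := Real.pi_pos
  rw [norm_exp_sub_eq]
  have e1 : ((j' - j : ℕ) : ℝ) = j' - j := by push_cast [h]; ring
  have e2 : ((j + n - j' : ℕ) : ℝ) = j + n - j' := by push_cast [h']; ring
  have hj : (j : ℝ) ≤ j' := by exact_mod_cast h
  have hj' : (j' : ℝ) ≤ j + n := by exact_mod_cast h'
  have e3 : (2 * Real.pi * j' / n - 2 * Real.pi * j / n) / 2 = Real.pi * ((j' - j) / n) := by
    field_simp
  rw [e3, e1, e2]
  have h0 : 0 ≤ ((j' : ℝ) - j) / n := div_nonneg (by linarith) hn'.le
  have h1 : ((j' : ℝ) - j) / n ≤ 1 := by rw [div_le_one hn']; linarith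
  have hs0 : 0 ≤ Real.sin (Real.pi * (((j' : ℝ) - j) / n)) :=
    Real.sin_nonneg_of_nonneg_of_le_pi (by positivity) (by nlinarith)
  rw [abs_of_nonneg hs0]
  rcases le_total (((j' : ℝ) - j) / n) (1 / 2) with hc | hc
  · have := Real.mul_le_sin (x := Real.pi * (((j' : ℝ) - j) / n)) (by positivity) (by nlinarith)
    have h2 : 2 / Real.pi * (Real.pi * (((j' : ℝ) - j) / n)) = 2 * (((j' : ℝ) - j) / n) := by
      field_simp
    rw [h2] at this
    have h3 : 4 * min ((j' : ℝ) - j) (j + n - j') / n ≤ 4 * (((j' : ℝ) - j) / n) := by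
      rw [mul_div_assoc]
      gcongr
      exact min_le_left _ _
    linarith
  · have := Real.mul_le_sin (x := Real.pi - Real.pi * (((j' : ℝ) - j) / n)) (by nlinarith)
      (by nlinarith)
    rw [Real.sin_pi_sub] at this
    have h2 : 2 / Real.pi * (Real.pi - Real.pi * (((j' : ℝ) - j) / n)) =
        2 * ((j + n - j') / n) := by
      field_simp
      ring
    rw [h2] at this
    have h3 : 4 * min ((j' : ℝ) - j) (j + n - j') / n ≤ 4 * ((j + n - j') / n) := by
      rw [mul_div_assoc]
      gcongr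
      exact min_le_right _ _
    linarith

open Classical in
lemma card_anc {B : ℕ} (hB : 5 ≤ B) (m : ℕ) (z : ℂ) :
    ((Finset.range (B ^ m)).filter (fun j => ‖nd B m j - z‖ ≤ 11 * sc B m)).card ≤ 22 := by
  set n := B ^ m with hn
  have hn0 : 0 < n := by positivity
  have hn' : (0 : ℝ) < n := by exact_mod_cast hn0
  have hsc : sc B m = 1 / n := by unfold sc; rw [hn]; push_cast; simp
  rcases Finset.eq_empty_or_nonempty
    ((Finset.range n).filter (fun j => ‖nd B m j - z‖ ≤ 11 * sc B m)) with he | ⟨j, hj⟩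
  · rw [he]; simp
  · have hkey : ∀ a ∈ (Finset.range n).filter (fun j => ‖nd B m j - z‖ ≤ 11 * sc B m),
        ∀ b ∈ (Finset.range n).filter (fun j => ‖nd B m j - z‖ ≤ 11 * sc B m), a ≤ b →
        b - a ≤ 5 ∨ a + n - b ≤ 5 := by
      intro a ha b hb hab
      simp only [Finset.mem_filter, Finset.mem_range] at ha hb
      have h1 := four_mul_le_norm_sub hn0 hab (by omega)
      have h2 : ‖exp ((2 * Real.pi * b / n : ℝ) * I) - exp ((2 * Real.pi * a / n : ℝ) * I)‖ ≤
          22 * sc B m := by
        have e1 : exp ((2 * Real.pi * b / n : ℝ) * I) = nd B m b := by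
          unfold nd; rw [hn]; push_cast; rfl
        have e2 : exp ((2 * Real.pi * a / n : ℝ) * I) = nd B m a := by
          unfold nd; rw [hn]; push_cast; rfl
        rw [e1, e2]
        have : nd B m b - nd B m a = (nd B m b - z) - (nd B m a - z) := by ring
        rw [this]
        refine (norm_sub_le _ _).trans ?_
        linarith [ha.2, hb.2]
      have h3 := h1.trans h2
      rw [hsc, div_le_iff₀ hn'] at h3
      have h4 : min ((b - a : ℕ) : ℝ) ((a + n - b : ℕ) : ℝ) ≤ 22 / 4 := by
        have : 22 * (1 / (n : ℝ)) * n = 22 := by field_simp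
        rw [this] at h3
        linarith
      rcases min_le_iff.1 h4 with h5 | h5
      · left
        have : ((b - a : ℕ) : ℝ) < 6 := by linarith
        have : b - a < 6 := by exact_mod_cast this
        omega
      · right
        have : ((a + n - b : ℕ) : ℝ) < 6 := by linarith
        have : a + n - b < 6 := by exact_mod_cast this
        omega
    calc _ ≤ ((Finset.Icc (j - 5) (j + 5)) ∪ (Finset.Icc (n - 5) (n - 1) ∪
          Finset.Icc 0 5)).card := by
          apply Finset.card_le_card
          intro b hb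
          have hjn : j < n := by
            simp only [Finset.mem_filter, Finset.mem_range] at hj; exact hj.1
          have hbn : b < n := by
            simp only [Finset.mem_filter, Finset.mem_range] at hb; exact hb.1
          simp only [Finset.mem_union, Finset.mem_Icc]
          rcases le_total j b with h | h
          · rcases hkey j hj b hb h with h1 | h1
            · left; constructor <;> omega
            · right; left; constructor <;> omega
          · rcases hkey b hb j hj h with h1 | h1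
            · left; constructor <;> omega
            · right; right; constructor <;> omega
      _ ≤ (Finset.Icc (j - 5) (j + 5)).card + ((Finset.Icc (n - 5) (n - 1)).card +
          (Finset.Icc 0 5).card) := by
          refine (Finset.card_union_le _ _).trans ?_
          gcongr
          exact Finset.card_union_le _ _
      _ ≤ 11 + (5 + 6) := by
          simp only [Nat.card_Icc]
          omega
      _ = 22 := by norm_num

open Classical in
lemma card_ball {c : ℝ} {B : ℕ} (hB : 5 ≤ B) (hcB : 3 ≤ c * B)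
    {X : Finset ℂ} (hK : KC c X) (m d : ℕ) (z : ℂ) :
    ((W B X (m + d)).filter (fun j => ‖nd B (m + d) j - z‖ ≤ 4 * sc B m)).card ≤
      (B - 1) ^ d * 22 := by
  have hmap : ∀ j ∈ (W B X (m + d)).filter (fun j => ‖nd B (m + d) j - z‖ ≤ 4 * sc B m),
      j / B ^ d ∈ (Finset.range (B ^ m)).filter (fun j => ‖nd B m j - z‖ ≤ 11 * sc B m) := by
    intro j hj
    simp only [Finset.mem_filter, W, Finset.mem_range] at hj ⊢
    obtain ⟨⟨h1, h2⟩, h3⟩ := hj
    refine ⟨?_, ?_⟩
    · rw [Nat.div_lt_iff_lt_mul (by positivity)]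
      calc j < B ^ (m + d) := h1
        _ = B ^ m * B ^ d := by ring
    · have h4 := nd_anc (B := B) (by omega) m d j
      have h5 : nd B m (j / B ^ d) - z = (nd B (m + d) j - z) -
        (nd B (m + d) j - nd B m (j / B ^ d)) := by ring
      rw [h5]
      refine (norm_sub_le _ _).trans ?_
      have h6 := Real.pi_lt_d2
      have h7 := sc_pos (B := B) (by omega) m
      nlinarith
  have := Finset.card_le_mul_card_image_of_maps_to hmap ((B - 1) ^ d) (by
    intro j' hj'
    refine le_trans (Finset.card_le_card ?_) (card_desc hB hcB hK m d j')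
    intro j hj
    simp only [Finset.mem_filter] at hj ⊢
    exact ⟨hj.1.1, hj.2⟩)
  exact this.trans (Nat.mul_le_mul le_rfl (card_anc hB m z))

end Pool.Agent.H85.ZI
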