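import Mathlib
import Pool.Agent.H85.ZI.Count

/-!
# A holomorphic function comparable to the inverse of the distance function
-/

namespace Pool.Agent.H85.ZI

open Complex Metric Set Finset

/-- The distance function. -/
noncomputable def tau (X : Finset ℂ) (z : ℂ) : ℝ := infDist z (X : Set ℂ) + (1 - ‖z‖)

lemma sum_shift_le (g : ℕ → ℝ) (hg : ∀ i, 0 ≤ g i) (m n : ℕ) :
    ∑ k ∈ Finset.range n, (if m ≤ k then g (k - m) else 0) ≤ ∑ i ∈ Finset.range n, g i := by
  rw [← Finset.sum_filter]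
  have h1 : (Finset.range n).filter (fun k => m ≤ k) = Finset.Ico m n := by
    ext k
    simp [and_comm]
  rw [h1, Finset.sum_Ico_eq_sum_range]
  have h2 : ∑ k ∈ Finset.range (n - m), g (m + k - m) = ∑ k ∈ Finset.range (n - m), g k := by
    refine Finset.sum_congr rfl fun k _ => ?_
    congr 1
    omega
  rw [h2]
  refine Finset.sum_le_sum_of_subset_of_nonneg ?_ (fun i _ _ => hg i)
  intro k hk
  rw [Finset.mem_range] at hk ⊢
  omega

lemma geom_le {r : ℝ} (h0 : 0 ≤ r) (h1 : r < 1) (n : ℕ) :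
    ∑ i ∈ Finset.range n, r ^ i ≤ 1 / (1 - r) := by
  have h13 := (summable_geometric_of_lt_one h0 h1).sum_le_tsum (Finset.range n)
    (fun _ _ => by positivity)
  rwa [tsum_geometric_of_lt_one h0 h1, ← one_div] at h13

lemma geom_le' {v : ℝ} (h1 : 1 < v) (n : ℕ) :
    ∑ i ∈ Finset.range n, v ^ i ≤ v ^ n / (v - 1) := by
  rw [geom_sum_eq h1.ne']
  have : 0 < v - 1 := by linarith
  gcongr
  linarith

/-- The size of the node seen from `z`. -/
noncomputable def rho (B k j : ℕ) (z : ℂ) : ℝ := ‖nd B k j - z‖ + sc B k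

lemma rho_pos {B : ℕ} (hB : 0 < B) (k j : ℕ) (z : ℂ) : 0 < rho B k j z := by
  unfold rho
  have := sc_pos hB k
  positivity

lemma tau_le_rho {B : ℕ} {X : Finset ℂ} {k j : ℕ} (h : Occ B X k j) (z : ℂ) :
    tau X z ≤ 8 * rho B k j z := by
  obtain ⟨x, hx, h⟩ := h
  unfold tau rho
  have h1 : infDist z (X : Set ℂ) ≤ dist z x := infDist_le_dist_of_mem (by exact_mod_cast hx)
  have h2 : dist z x ≤ ‖nd B k j - z‖ + ‖x - nd B k j‖ := by
    rw [dist_eq_norm]
    have : z - x = -((nd B k j - z) + (x - nd B k j)) := by ring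
    rw [this, norm_neg]
    exact norm_add_le _ _
  have h3 : 1 - ‖z‖ ≤ ‖nd B k j - z‖ := by
    have := norm_sub_norm_le (nd B k j) z
    rwa [norm_nd] at this
  have := norm_nonneg (nd B k j - z)
  linarith

open Classical in
/-- The sum over the nodes. -/
lemma sum_nodes_le {c : ℝ} {B : ℕ} (hB : 5 ≤ B) (hcB : 3 ≤ c * B)
    {X : Finset ℂ} (hK : KC c X) {u : ℝ} (hu : 0 ≤ u) (b : ℕ) (hu1 : u * (B - 1) < 1)
    (hu2 : 1 < u * B ^ b) {z : ℂ} (hz : ‖z‖ ≤ 2) {M : ℕ}
    (hM : ∀ k, ∀ j ∈ W B X k, 4 * sc B (M + 1) < rho B k j z) (n : ℕ) :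
    ∑ k ∈ Finset.range n, ∑ j ∈ W B X k, u ^ k / rho B k j z ^ b ≤
      22 * B ^ b / (1 - u * (B - 1)) * ((u * B ^ b) ^ (M + 1) / (u * B ^ b - 1)) := by
  have hB0 : (0 : ℝ) < B := by exact_mod_cast (by omega : 0 < B)
  have hB1 : (5 : ℝ) ≤ B := by exact_mod_cast hB
  have hBm : (0 : ℝ) ≤ (B : ℝ) - 1 := by linarith
  -- pointwise
  have h1 : ∀ k ∈ Finset.range n, ∀ j ∈ W B X k, u ^ k / rho B k j z ^ b ≤
      ∑ m ∈ Finset.range (M + 1), (if m ≤ k ∧ ‖nd B k j - z‖ ≤ 4 * sc B m then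
        u ^ k * (B : ℝ) ^ ((m + 1) * b) else 0) := by
    intro k _ j hj
    have hr := rho_pos (B := B) (by omega) k j z
    have hr4 : rho B k j z ≤ 4 := by
      unfold rho
      have h2 : ‖nd B k j - z‖ ≤ ‖nd B k j‖ + ‖z‖ := norm_sub_le _ _
      rw [norm_nd] at h2
      have h3 : sc B k ≤ 1 := by
        rw [← sc_zero B]; exact sc_anti (by omega) (Nat.zero_le _)
      linarith
    obtain ⟨m, hm1, hm2⟩ := exists_nat_pow_near_of_lt_one (x := rho B k j z / 4)
      (y := (B : ℝ)⁻¹) (by positivity) (by linarith) (by positivity)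
      (inv_lt_one_of_one_lt₀ (by linarith))
    have e1 : ((B : ℝ)⁻¹) ^ (m + 1) = sc B (m + 1) := by unfold sc; rw [inv_pow]
    have e2 : ((B : ℝ)⁻¹) ^ m = sc B m := by unfold sc; rw [inv_pow]
    rw [e1] at hm1
    rw [e2] at hm2
    have hmk : m ≤ k := by
      by_contra hcon
      have h4 : sc B m ≤ sc B (k + 1) := sc_anti (by omega) (by omega)
      rw [sc_succ] at h4
      have h5 : sc B k ≤ rho B k j z := by
        unfold rho; linarith [norm_nonneg (nd B k j - z)]
      have h6 := sc_pos (B := B) (by omega) k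
      have h7 : sc B k / B ≤ sc B k / 5 := by
        exact div_le_div_of_nonneg_left h6.le (by norm_num) hB1
      linarith
    have hmM : m < M + 1 := by
      by_contra hcon
      have h4 : sc B m ≤ sc B (M + 1) := sc_anti (by omega) (by omega)
      have h5 := hM k j hj
      linarith
    have h6 := Finset.single_le_sum (f := fun m => (if m ≤ k ∧ ‖nd B k j - z‖ ≤ 4 * sc B m then
        u ^ k * (B : ℝ) ^ ((m + 1) * b) else 0)) (s := Finset.range (M + 1))
        (fun l _ => by positivity) (Finset.mem_range.mpr hmM)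
    refine le_trans ?_ h6
    have h7 : ‖nd B k j - z‖ ≤ 4 * sc B m := by
      have : ‖nd B k j - z‖ ≤ rho B k j z := by
        unfold rho; linarith [sc_pos (B := B) (by omega) k]
      linarith
    rw [if_pos ⟨hmk, h7⟩, div_eq_mul_inv, ← inv_pow, pow_mul]
    have h8 : (rho B k j z)⁻¹ ≤ (B : ℝ) ^ (m + 1) := by
      rw [inv_le_comm₀ hr (by positivity)]
      have : sc B (m + 1) = ((B : ℝ) ^ (m + 1))⁻¹ := rfl
      rw [← this]
      linarith [sc_pos (B := B) (by omega) (m + 1)]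
    gcongr
  -- the sum for fixed `m`
  have h2 : ∀ m ∈ Finset.range (M + 1), ∑ k ∈ Finset.range n, ∑ j ∈ W B X k,
      (if m ≤ k ∧ ‖nd B k j - z‖ ≤ 4 * sc B m then
        u ^ k * (B : ℝ) ^ ((m + 1) * b) else 0) ≤
      22 * B ^ b / (1 - u * (B - 1)) * (u * B ^ b) ^ m := by
    intro m _
    have h3 : ∀ k ∈ Finset.range n, ∑ j ∈ W B X k,
        (if m ≤ k ∧ ‖nd B k j - z‖ ≤ 4 * sc B m then
          u ^ k * (B : ℝ) ^ ((m + 1) * b) else 0) ≤
        (if m ≤ k then 22 * (B : ℝ) ^ b * (u * B ^ b) ^ m * (u * (B - 1)) ^ (k - m) else 0) := by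
      intro k _
      by_cases hmk : m ≤ k
      · rw [if_pos hmk]
        have h4 : ∑ j ∈ W B X k, (if m ≤ k ∧ ‖nd B k j - z‖ ≤ 4 * sc B m then
            u ^ k * (B : ℝ) ^ ((m + 1) * b) else 0) =
            (((W B X k).filter (fun j => ‖nd B k j - z‖ ≤ 4 * sc B m)).card : ℝ) *
              (u ^ k * (B : ℝ) ^ ((m + 1) * b)) := by
          rw [← nsmul_eq_mul, ← Finset.sum_const, Finset.sum_filter]
          refine Finset.sum_congr rfl fun j _ => ?_
          simp [hmk]
        rw [h4]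
        obtain ⟨d, rfl⟩ := Nat.exists_eq_add_of_le hmk
        have h5 := card_ball hB hcB hK m d z
        have h6 : (((W B X (m + d)).filter
            (fun j => ‖nd B (m + d) j - z‖ ≤ 4 * sc B m)).card : ℝ) ≤
            ((B : ℝ) - 1) ^ d * 22 := by
          have h7 : ((B - 1 : ℕ) : ℝ) = (B : ℝ) - 1 := by
            rw [Nat.cast_sub (by omega)]; simp
          rw [← h7]
          exact_mod_cast h5
        calc _ ≤ ((B : ℝ) - 1) ^ d * 22 * (u ^ (m + d) * (B : ℝ) ^ ((m + 1) * b)) := by gcongr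
          _ = _ := by
            rw [Nat.add_sub_cancel_left, mul_pow, mul_pow, pow_add, add_mul, pow_add, one_mul,
              pow_mul']
            ring
      · rw [if_neg hmk]
        apply le_of_eq
        apply Finset.sum_eq_zero
        intro j _
        rw [if_neg (fun h => hmk h.1)]
    refine (Finset.sum_le_sum h3).trans ?_
    refine (sum_shift_le (fun i => 22 * (B : ℝ) ^ b * (u * B ^ b) ^ m * (u * (B - 1)) ^ i)
      (fun i => by positivity) m n).trans ?_
    rw [← Finset.mul_sum]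
    have h4 := geom_le (r := u * (B - 1)) (by positivity) hu1 n
    calc _ ≤ 22 * (B : ℝ) ^ b * (u * B ^ b) ^ m * (1 / (1 - u * (B - 1))) := by gcongr
      _ = _ := by ring
  calc ∑ k ∈ Finset.range n, ∑ j ∈ W B X k, u ^ k / rho B k j z ^ b
      ≤ ∑ k ∈ Finset.range n, ∑ j ∈ W B X k, ∑ m ∈ Finset.range (M + 1),
        (if m ≤ k ∧ ‖nd B k j - z‖ ≤ 4 * sc B m then
        u ^ k * (B : ℝ) ^ ((m + 1) * b) else 0) :=
        Finset.sum_le_sum fun k hk => Finset.sum_le_sum (h1 k hk)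
    _ = ∑ m ∈ Finset.range (M + 1), ∑ k ∈ Finset.range n, ∑ j ∈ W B X k,
        (if m ≤ k ∧ ‖nd B k j - z‖ ≤ 4 * sc B m then
        u ^ k * (B : ℝ) ^ ((m + 1) * b) else 0) := by
        rw [Finset.sum_comm]
        refine Finset.sum_congr rfl fun k _ => ?_
        rw [Finset.sum_comm]
    _ ≤ ∑ m ∈ Finset.range (M + 1), 22 * B ^ b / (1 - u * (B - 1)) * (u * B ^ b) ^ m :=
        Finset.sum_le_sum h2
    _ ≤ _ := by
        rw [← Finset.mul_sum]
        have h4 := geom_le' hu2 (M + 1)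
        have h5 : 0 < 1 - u * (B - 1) := by linarith
        gcongr

end Pool.Agent.H85.ZI
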