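import Mathlib
import Pool.Agent.H85.ZI.Kernel

/-!
# A holomorphic function comparable to the inverse of the distance function, II
-/

namespace Pool.Agent.H85.ZI

open Complex Metric Set Finset

/-- The denominator. -/
noncomputable def den (B k j : ℕ) (z : ℂ) : ℂ := 1 + (sc B k : ℂ) - (starRingEnd ℂ) (nd B k j) * z

lemma norm_one_sub_conj_mul (B k j : ℕ) (z : ℂ) :
    ‖1 - (starRingEnd ℂ) (nd B k j) * z‖ = ‖nd B k j - z‖ := by
  have h : nd B k j * (1 - (starRingEnd ℂ) (nd B k j) * z) = nd B k j - z := by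
    rw [mul_sub, ← mul_assoc, Complex.mul_conj, Complex.normSq_eq_norm_sq, norm_nd]
    push_cast
    ring
  rw [← h, norm_mul, norm_nd, one_mul]

lemma re_conj_mul_le (B k j : ℕ) {z : ℂ} (hz : ‖z‖ ≤ 1) :
    ((starRingEnd ℂ) (nd B k j) * z).re ≤ 1 := by
  refine (Complex.re_le_norm _).trans ?_
  rw [norm_mul, RCLike.norm_conj, norm_nd, one_mul]
  exact hz

lemma sc_le_re_den (B k j : ℕ) {z : ℂ} (hz : ‖z‖ ≤ 1) : sc B k ≤ (den B k j z).re := by
  unfold den
  have := re_conj_mul_le B k j hz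
  simp only [Complex.sub_re, Complex.add_re, Complex.one_re, Complex.ofReal_re]
  linarith

lemma rho_le_three_den {B : ℕ} (hB : 0 < B) (k j : ℕ) {z : ℂ} (hz : ‖z‖ ≤ 1) :
    rho B k j z ≤ 3 * ‖den B k j z‖ := by
  have h1 := sc_le_re_den B k j hz
  have h2 := (h1.trans (Complex.re_le_norm _))
  have h3 : ‖nd B k j - z‖ ≤ ‖den B k j z‖ + sc B k := by
    rw [← norm_one_sub_conj_mul]
    have : 1 - (starRingEnd ℂ) (nd B k j) * z = den B k j z - (sc B k : ℂ) := by
      unfold den; ring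
    rw [this]
    refine (norm_sub_le _ _).trans ?_
    rw [Complex.norm_real, Real.norm_eq_abs, abs_of_pos (sc_pos hB k)]
  unfold rho
  linarith

lemma den_le_rho {B : ℕ} (hB : 0 < B) (k j : ℕ) (z : ℂ) :
    ‖den B k j z‖ ≤ rho B k j z := by
  have : den B k j z = (1 - (starRingEnd ℂ) (nd B k j) * z) + (sc B k : ℂ) := by
    unfold den; ring
  rw [this]
  refine (norm_add_le _ _).trans ?_
  rw [norm_one_sub_conj_mul, Complex.norm_real, Real.norm_eq_abs, abs_of_pos (sc_pos hB k)]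
  rfl

lemma den_sub (B k j : ℕ) (z z0 : ℂ) : ‖den B k j z - den B k j z0‖ = ‖z - z0‖ := by
  have : den B k j z - den B k j z0 = - ((starRingEnd ℂ) (nd B k j) * (z - z0)) := by
    unfold den; ring
  rw [this, norm_neg, norm_mul, RCLike.norm_conj, norm_nd, one_mul]

lemma rho_le_six_den {B : ℕ} (hB : 0 < B) (k j : ℕ) {z0 z : ℂ} (hz : ‖z0‖ ≤ 1)
    (h : 6 * ‖z - z0‖ ≤ rho B k j z0) : rho B k j z0 ≤ 6 * ‖den B k j z‖ := by
  have h1 := rho_le_three_den hB k j hz
  have h2 : ‖den B k j z0‖ ≤ ‖den B k j z‖ + ‖z - z0‖ := by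
    rw [← den_sub B k j z z0]
    have : den B k j z0 = den B k j z - (den B k j z - den B k j z0) := by ring
    calc ‖den B k j z0‖ = ‖den B k j z - (den B k j z - den B k j z0)‖ := by rw [← this]
      _ ≤ _ := norm_sub_le _ _
  linarith

/-- The sum of the kernels. -/
noncomputable def Hf (B : ℕ) (θ : ℝ) (X : Finset ℂ) (n : ℕ) (z : ℂ) : ℂ :=
  ∑ k ∈ Finset.range n, ∑ j ∈ W B X k, ((θ ^ k * sc B k : ℝ) : ℂ) / den B k j z

lemma exists_near_node {B : ℕ} (hB : 0 < B) (k : ℕ) (x : ℂ) :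
    ∃ j < B ^ k, ‖x - nd B k j‖ ≤ |1 - ‖x‖| + 2 * Real.pi * sc B k := by
  have hB0 : (0 : ℝ) < B := by exact_mod_cast hB
  have hpi := Real.pi_pos
  -- an angle in `[0, 2π)`
  obtain ⟨α, h0, h1, hx⟩ : ∃ α : ℝ, 0 ≤ α ∧ α < 2 * Real.pi ∧
      x = (‖x‖ : ℂ) * exp (α * I) := by
    rcases le_or_gt 0 (Complex.arg x) with h | h
    · refine ⟨Complex.arg x, h, ?_, (Complex.norm_mul_exp_arg_mul_I x).symm⟩
      have := Complex.arg_le_pi x
      linarith
    · refine ⟨Complex.arg x + 2 * Real.pi, ?_, by linarith, ?_⟩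
      · have := Complex.neg_pi_lt_arg x
        linarith
      · have : ((Complex.arg x + 2 * Real.pi : ℝ) : ℂ) * I = Complex.arg x * I +
            2 * Real.pi * I := by push_cast; ring
        rw [this, Complex.exp_periodic]
        exact (Complex.norm_mul_exp_arg_mul_I x).symm
  set y : ℝ := α * B ^ k / (2 * Real.pi) with hy
  have hy0 : 0 ≤ y := by positivity
  have hyB : y < ((B ^ k : ℕ) : ℝ) := by
    rw [hy, div_lt_iff₀ (by positivity)]
    push_cast
    have : (0 : ℝ) < B ^ k := by positivity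
    nlinarith
  refine ⟨⌊y⌋₊, ?_, ?_⟩
  · rwa [Nat.floor_lt hy0]
  · have h3 : ‖exp (α * I) - nd B k ⌊y⌋₊‖ ≤ 2 * Real.pi * sc B k := by
      unfold nd
      refine (norm_exp_sub_le _ _).trans ?_
      have h4 : α - 2 * Real.pi * (⌊y⌋₊ : ℝ) / B ^ k = 2 * Real.pi * sc B k * (y - ⌊y⌋₊) := by
        rw [hy]; unfold sc; field_simp
      rw [h4, abs_mul, abs_of_nonneg (a := 2 * Real.pi * sc B k)
        (by have := sc_pos hB k; positivity)]
      have h5 : |y - ⌊y⌋₊| ≤ 1 := by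
        have h6 := Nat.floor_le hy0
        have h7 := Nat.lt_floor_add_one y
        rw [abs_of_nonneg (by linarith)]
        linarith
      have : 0 ≤ 2 * Real.pi * sc B k := by have := sc_pos hB k; positivity
      nlinarith
    have h4 : ‖x - exp (α * I)‖ = |1 - ‖x‖| := by
      have h5 : x - exp (α * I) = ((‖x‖ - 1 : ℝ) : ℂ) * exp (α * I) := by
        nth_rw 1 [hx]
        push_cast
        ring
      rw [h5, norm_mul, Complex.norm_exp_ofReal_mul_I, mul_one, Complex.norm_real,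
        Real.norm_eq_abs, abs_sub_comm]
    calc ‖x - nd B k ⌊y⌋₊‖ ≤ ‖x - exp (α * I)‖ + ‖exp (α * I) - nd B k ⌊y⌋₊‖ :=
          norm_sub_le_norm_sub_add_norm_sub _ _ _
      _ ≤ _ := by rw [h4]; linarith

lemma exists_nearest {X : Finset ℂ} (hX : X.Nonempty) (z : ℂ) :
    ∃ x ∈ X, infDist z (X : Set ℂ) = ‖z - x‖ := by
  obtain ⟨x, hx, h⟩ := (X.finite_toSet.isCompact).exists_infDist_eq_dist
    (by exact_mod_cast hX) z
  exact ⟨x, by exact_mod_cast hx, by rw [h, dist_eq_norm]⟩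

lemma exists_tau {X : Finset ℂ} (hX : X.Nonempty) (z : ℂ) :
    ∃ x ∈ X, tau X z = ‖z - x‖ + (1 - ‖z‖) ∧ 1 - ‖x‖ ≤ tau X z := by
  obtain ⟨x, hx, h⟩ := exists_nearest hX z
  refine ⟨x, hx, by rw [tau, h], ?_⟩
  rw [tau, h]
  have := norm_sub_norm_le z x
  linarith [norm_sub_norm_le z x]

lemma tau_pos {X : Finset ℂ} (hX : X.Nonempty) (hX1 : ∀ x ∈ X, ‖x‖ < 1) (z : ℂ) :
    0 < tau X z := by
  obtain ⟨x, hx, _, h2⟩ := exists_tau hX z
  linarith [hX1 x hx]

lemma tau_le_three {X : Finset ℂ} (hX : X.Nonempty) (hX1 : ∀ x ∈ X, ‖x‖ < 1) (z : ℂ) :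
    tau X z ≤ 3 := by
  obtain ⟨x, hx, h1, _⟩ := exists_tau hX z
  rw [h1]
  have h2 := norm_sub_le z x
  have h3 := hX1 x hx
  have := norm_nonneg z
  linarith

/-- An occupied node close to `z`. -/
lemma exists_occ {B : ℕ} (hB : 32 ≤ B) {X : Finset ℂ} (hX : X.Nonempty)
    (hX1 : ∀ x ∈ X, ‖x‖ < 1) {z : ℂ} (hz : ‖z‖ ≤ 1) {M : ℕ} (hM : tau X z / 32 ≤ sc B M) :
    ∃ j ∈ W B X (M - 1), rho B (M - 1) j z ≤ 10 * sc B (M - 1) := by
  classical
  obtain ⟨x, hx, h1, h2⟩ := exists_tau hX z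
  have hx1 := hX1 x hx
  have hpi := Real.pi_lt_d2
  rcases Nat.eq_zero_or_pos M with h0 | h0
  · subst h0
    refine ⟨0, ?_, ?_⟩
    · simp only [W, Finset.mem_filter, Finset.mem_range]
      refine ⟨by simp, x, hx, ?_⟩
      have h3 := norm_sub_le x (nd B (0 - 1) 0)
      rw [norm_nd] at h3
      rw [Nat.zero_sub] at h3
      rw [sc_zero]
      linarith
    · unfold rho
      have h3 := norm_sub_le (nd B (0 - 1) 0) z
      rw [norm_nd] at h3
      rw [Nat.zero_sub] at h3 ⊢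
      rw [sc_zero]
      linarith
  · obtain ⟨k, rfl⟩ : ∃ k, M = k + 1 := ⟨M - 1, by omega⟩
    rw [Nat.add_sub_cancel]
    have hs := sc_pos (B := B) (by omega) k
    have h3 : tau X z ≤ sc B k := by
      rw [sc_succ] at hM
      have hB' : (32 : ℝ) ≤ B := by exact_mod_cast hB
      have h4 : sc B k / B ≤ sc B k / 32 := div_le_div_of_nonneg_left hs.le (by norm_num) hB'
      linarith
    obtain ⟨j, hj, hj2⟩ := exists_near_node (B := B) (by omega) k x
    rw [abs_of_pos (by linarith)] at hj2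
    have h4 : ‖x - nd B k j‖ ≤ 8 * sc B k := by nlinarith
    refine ⟨j, ?_, ?_⟩
    · simp only [W, Finset.mem_filter, Finset.mem_range]
      exact ⟨hj, x, hx, h4⟩
    · unfold rho
      have h5 : ‖nd B k j - z‖ ≤ ‖x - nd B k j‖ + ‖z - x‖ := by
        have : nd B k j - z = -((x - nd B k j) + (z - x)) := by ring
        rw [this, norm_neg]
        exact norm_add_le _ _
      have h6 : ‖z - x‖ ≤ tau X z := by rw [h1]; linarith
      linarith

section Main

variable {c : ℝ} {B : ℕ} (hB : 32 ≤ B) (hcB : 3 ≤ c * B) {θ : ℝ} (hθ1 : 1 < θ)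
  (hθ2 : θ / B * (B - 1) < 1) {X : Finset ℂ} (hX : X.Nonempty) (hX1 : ∀ x ∈ X, ‖x‖ < 1)
  (hK : KC c X)

lemma nodes_lt {z : ℂ} {M : ℕ} (hM : sc B (M + 1) < tau X z / 32) :
    ∀ k, ∀ j ∈ W B X k, 4 * sc B (M + 1) < rho B k j z := by
  classical
  intro k j hj
  simp only [W, Finset.mem_filter, Finset.mem_range] at hj
  have := tau_le_rho hj.2 z
  linarith

include hB hcB hθ1 hθ2 hK in
lemma norm_Hf_le {z : ℂ} (hz : ‖z‖ ≤ 1) {M : ℕ} (hM : sc B (M + 1) < tau X z / 32) (n : ℕ) :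
    ‖Hf B θ X n z‖ ≤ 3 * (22 * B / (1 - θ / B * (B - 1)) * (θ / (θ - 1))) * θ ^ M := by
  have hB0 : (0 : ℝ) < B := by exact_mod_cast (by omega : 0 < B)
  have h1 := sum_nodes_le (u := θ / B) (by omega : 5 ≤ B) hcB hK (by positivity) 1 hθ2
    (by rw [pow_one, div_mul_cancel₀ _ hB0.ne']; exact hθ1) (by linarith)
    (nodes_lt hM) n
  have h2 : ‖Hf B θ X n z‖ ≤ 3 * ∑ k ∈ Finset.range n, ∑ j ∈ W B X k,
      (θ / B) ^ k / rho B k j z ^ 1 := by
    unfold Hf
    rw [Finset.mul_sum]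
    refine (norm_sum_le _ _).trans (Finset.sum_le_sum fun k _ => ?_)
    rw [Finset.mul_sum]
    refine (norm_sum_le _ _).trans (Finset.sum_le_sum fun j _ => ?_)
    have h3 := rho_le_three_den (B := B) (by omega) k j hz
    have h4 := rho_pos (B := B) (by omega) k j z
    have h5 : 0 < ‖den B k j z‖ := by linarith
    have hs := sc_pos (B := B) (by omega) k
    rw [norm_div, Complex.norm_real, Real.norm_eq_abs, abs_of_pos (by positivity), pow_one,
      div_pow]
    have h6 : θ ^ k * sc B k = θ ^ k / B ^ k := by unfold sc; rfl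
    rw [h6, ← mul_div_assoc, div_le_div_iff₀ h5 h4]
    have : 0 < θ ^ k / (B : ℝ) ^ k := by positivity
    nlinarith
  refine h2.trans ?_
  have h3 : θ / B * (B : ℝ) ^ 1 = θ := by rw [pow_one, div_mul_cancel₀ _ hB0.ne']
  rw [h3] at h1
  calc _ ≤ 3 * (22 * (B : ℝ) ^ 1 / (1 - θ / B * (B - 1)) * (θ ^ (M + 1) / (θ - 1))) := by
        gcongr
    _ = _ := by rw [pow_one, pow_succ]; ring

include hB hcB hθ1 hθ2 hK in
lemma norm_Hf_sub_le {z0 z : ℂ} (hz : ‖z0‖ ≤ 1) (hzz : 48 * ‖z - z0‖ ≤ tau X z0) {M : ℕ}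
    (hM : sc B (M + 1) < tau X z0 / 32) (n : ℕ) :
    ‖Hf B θ X n z - Hf B θ X n z0‖ ≤ ‖z - z0‖ *
      (18 * (22 * B ^ 2 / (1 - θ / B * (B - 1)) * (θ * B / (θ * B - 1))) * (θ * B) ^ M) := by
  classical
  have hB0 : (0 : ℝ) < B := by exact_mod_cast (by omega : 0 < B)
  have hB1 : (32 : ℝ) ≤ B := by exact_mod_cast hB
  have hθB : θ / B * (B : ℝ) ^ 2 = θ * B := by field_simp
  have h1 := sum_nodes_le (u := θ / B) (by omega : 5 ≤ B) hcB hK (by positivity) 2 hθ2
    (by rw [hθB]; nlinarith) (by linarith)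
    (nodes_lt hM) n
  have h2 : ‖Hf B θ X n z - Hf B θ X n z0‖ ≤ ‖z - z0‖ * 18 * ∑ k ∈ Finset.range n,
      ∑ j ∈ W B X k, (θ / B) ^ k / rho B k j z0 ^ 2 := by
    unfold Hf
    rw [← Finset.sum_sub_distrib, Finset.mul_sum]
    refine (norm_sum_le _ _).trans (Finset.sum_le_sum fun k _ => ?_)
    rw [← Finset.sum_sub_distrib, Finset.mul_sum]
    refine (norm_sum_le _ _).trans (Finset.sum_le_sum fun j hj => ?_)
    have hocc : Occ B X k j := by
      simp only [W, Finset.mem_filter, Finset.mem_range] at hj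
      exact hj.2
    have h3 := rho_le_three_den (B := B) (by omega) k j hz
    have h3' := rho_le_six_den (B := B) (by omega) k j (z := z) hz
      (by have := tau_le_rho hocc z0; linarith)
    have h4 := rho_pos (B := B) (by omega) k j z0
    have h5 : 0 < ‖den B k j z0‖ := by linarith
    have h5' : 0 < ‖den B k j z‖ := by linarith
    have hs := sc_pos (B := B) (by omega) k
    have e1 : ((θ ^ k * sc B k : ℝ) : ℂ) / den B k j z - ((θ ^ k * sc B k : ℝ) : ℂ) /
        den B k j z0 = ((θ ^ k * sc B k : ℝ) : ℂ) * (den B k j z0 - den B k j z) /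
          (den B k j z * den B k j z0) := by
      have h6 : den B k j z ≠ 0 := norm_pos_iff.1 h5'
      have h7 : den B k j z0 ≠ 0 := norm_pos_iff.1 h5
      field_simp
    rw [e1, norm_div, norm_mul, norm_mul, norm_sub_rev, den_sub, Complex.norm_real,
      Real.norm_eq_abs, abs_of_pos (by positivity), div_pow]
    have h6 : θ ^ k * sc B k = θ ^ k / B ^ k := by unfold sc; rfl
    rw [h6, div_le_iff₀ (by positivity)]
    have h8 : rho B k j z0 ^ 2 ≤ 18 * (‖den B k j z‖ * ‖den B k j z0‖) := by nlinarith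
    have h9 : 0 ≤ θ ^ k / (B : ℝ) ^ k := by positivity
    have h10 : 1 ≤ 18 / rho B k j z0 ^ 2 * (‖den B k j z‖ * ‖den B k j z0‖) := by
      rw [div_mul_eq_mul_div, le_div_iff₀ (by positivity)]
      linarith
    calc θ ^ k / (B : ℝ) ^ k * ‖z - z0‖ = ‖z - z0‖ * (θ ^ k / B ^ k) * 1 := by ring
      _ ≤ ‖z - z0‖ * (θ ^ k / B ^ k) *
          (18 / rho B k j z0 ^ 2 * (‖den B k j z‖ * ‖den B k j z0‖)) := by gcongr
      _ = _ := by ring
  refine h2.trans ?_
  rw [hθB] at h1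
  calc _ ≤ ‖z - z0‖ * 18 * (22 * (B : ℝ) ^ 2 / (1 - θ / B * (B - 1)) *
        ((θ * B) ^ (M + 1) / (θ * B - 1))) := by gcongr
    _ = _ := by rw [pow_succ (θ * B)]; ring

include hB hθ1 hX hX1 in
lemma le_norm_Hf {z : ℂ} (hz : ‖z‖ ≤ 1) {M n : ℕ} (hMn : M < n)
    (hM : tau X z / 32 ≤ sc B M) : θ ^ M / (100 * θ) ≤ ‖Hf B θ X n z‖ := by
  classical
  obtain ⟨j0, hj0, hj1⟩ := exists_occ hB hX hX1 hz hM
  have hre : ∀ k, ∀ j ∈ W B X k, 0 ≤ (((θ ^ k * sc B k : ℝ) : ℂ) / den B k j z).re := by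
    intro k j _
    have h1 := sc_le_re_den B k j hz
    have hs := sc_pos (B := B) (by omega) k
    rw [Complex.div_re, Complex.ofReal_re, Complex.ofReal_im, zero_mul, zero_div, add_zero]
    have : 0 ≤ (den B k j z).re := by linarith
    exact div_nonneg (mul_nonneg (by positivity) this) (Complex.normSq_nonneg _)
  have h1 : (((θ ^ (M - 1) * sc B (M - 1) : ℝ) : ℂ) / den B (M - 1) j0 z).re ≤
      (Hf B θ X n z).re := by
    unfold Hf
    rw [Complex.re_sum]
    have h2 := Finset.single_le_sum (f := fun k => (∑ j ∈ W B X k,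
      ((θ ^ k * sc B k : ℝ) : ℂ) / den B k j z).re) (s := Finset.range n)
      (fun k _ => by
        rw [Complex.re_sum]
        exact Finset.sum_nonneg (hre k)) (Finset.mem_range.2 (by omega : M - 1 < n))
    refine le_trans ?_ h2
    rw [Complex.re_sum]
    exact Finset.single_le_sum (f := fun j => (((θ ^ (M - 1) * sc B (M - 1) : ℝ) : ℂ) /
      den B (M - 1) j z).re) (hre (M - 1)) hj0
  refine le_trans ?_ (h1.trans (Complex.re_le_norm _))
  have hs := sc_pos (B := B) (by omega) (M - 1)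
  have h2 := sc_le_re_den B (M - 1) j0 hz
  have h3 := (den_le_rho (B := B) (by omega) (M - 1) j0 z).trans hj1
  rw [Complex.div_re, Complex.ofReal_re, Complex.ofReal_im, zero_mul, zero_div, add_zero,
    Complex.normSq_eq_norm_sq]
  have h5 : 0 < ‖den B (M - 1) j0 z‖ := by
    have := Complex.re_le_norm (den B (M - 1) j0 z)
    linarith
  have h4 : θ ^ M / (100 * θ) ≤ θ ^ (M - 1) / 100 := by
    rcases Nat.eq_zero_or_pos M with h0 | h0
    · subst h0
      simp only [pow_zero, Nat.zero_sub]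
      apply div_le_div_of_nonneg_left (by norm_num) (by norm_num)
      linarith
    · obtain ⟨k, rfl⟩ : ∃ k, M = k + 1 := ⟨M - 1, by omega⟩
      rw [Nat.add_sub_cancel, pow_succ]
      apply le_of_eq
      field_simp
  refine h4.trans ?_
  rw [le_div_iff₀ (by positivity)]
  have h6 : ‖den B (M - 1) j0 z‖ ^ 2 ≤ (10 * sc B (M - 1)) ^ 2 := by gcongr
  calc θ ^ (M - 1) / 100 * ‖den B (M - 1) j0 z‖ ^ 2 ≤ θ ^ (M - 1) / 100 *
        (10 * sc B (M - 1)) ^ 2 := by gcongr
    _ = θ ^ (M - 1) * sc B (M - 1) * sc B (M - 1) := by ring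
    _ ≤ _ := by gcongr

include hB in
lemma differentiableOn_Hf {z0 : ℂ} (hz : ‖z0‖ ≤ 1) (n : ℕ) {r : ℝ} (hr : 48 * r ≤ tau X z0) :
    DifferentiableOn ℂ (Hf B θ X n) (ball z0 r) := by
  classical
  unfold Hf
  refine DifferentiableOn.fun_sum fun k _ => DifferentiableOn.fun_sum fun j hj => ?_
  refine DifferentiableOn.div (differentiableOn_const _) ?_ ?_
  · unfold den
    fun_prop
  · intro z hz'
    have hocc : Occ B X k j := by
      simp only [W, Finset.mem_filter, Finset.mem_range] at hj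
      exact hj.2
    rw [mem_ball, dist_eq_norm] at hz'
    have h3' := rho_le_six_den (B := B) (by omega) k j (z := z) hz
      (by have := tau_le_rho hocc z0; linarith)
    have h4 := rho_pos (B := B) (by omega) k j z0
    exact norm_pos_iff.1 (by linarith)

end Main

end Pool.Agent.H85.ZI

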