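import Mathlib
import Pool.Agent.H85.ZI.Kernel2

/-!
# A holomorphic function comparable to the inverse of the distance function, III
-/

namespace Pool.Agent.H85.ZI

open Complex Metric Set Finset

lemma exists_params {c : ℝ} (hc : 0 < c) : ∃ B : ℕ, 32 ≤ B ∧ 3 ≤ c * B ∧ ∃ p : ℕ, 0 < p ∧
    ∃ θ : ℝ, 1 < θ ∧ θ / B * (B - 1) < 1 ∧ θ ^ p = B := by
  obtain ⟨N, hN⟩ := exists_nat_gt (3 / c)
  refine ⟨max 32 N, le_max_left _ _, ?_, ?_⟩
  · have h1 : (N : ℝ) ≤ (max 32 N : ℕ) := by exact_mod_cast le_max_right _ _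
    rw [div_lt_iff₀ hc] at hN
    nlinarith
  · set B := max 32 N with hBdef
    have hB : 32 ≤ B := le_max_left _ _
    have hB1 : (32 : ℝ) ≤ B := by exact_mod_cast hB
    have hp : 0 < B ^ 2 := by positivity
    refine ⟨B ^ 2, hp, (B : ℝ) ^ (((B ^ 2 : ℕ) : ℝ)⁻¹), ?_, ?_, ?_⟩
    · exact Real.one_lt_rpow (by linarith) (by positivity)
    · by_contra hcon
      rw [not_lt] at hcon
      set θ : ℝ := (B : ℝ) ^ (((B ^ 2 : ℕ) : ℝ)⁻¹) with hθ
      have h1 : θ ^ (B ^ 2) = B := Real.rpow_inv_natCast_pow (by positivity) hp.ne'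
      have h2 : 1 + 1 / ((B : ℝ) - 1) ≤ θ := by
        rw [div_mul_eq_mul_div, le_div_iff₀ (by positivity), one_mul] at hcon
        have h3 : 1 + 1 / ((B : ℝ) - 1) = B / (B - 1) := by
          have : (B : ℝ) - 1 ≠ 0 := by linarith
          field_simp
          ring
        rw [h3, div_le_iff₀ (by linarith)]
        exact hcon
      have h3 := one_add_mul_le_pow (a := 1 / ((B : ℝ) - 1))
        (by have : 0 < (B : ℝ) - 1 := by linarith
            have : 0 ≤ 1 / ((B : ℝ) - 1) := by positivity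
            linarith) (B ^ 2)
      have h4 : (1 + 1 / ((B : ℝ) - 1)) ^ (B ^ 2) ≤ θ ^ (B ^ 2) := by
        have : 0 < (B : ℝ) - 1 := by linarith
        gcongr
      rw [h1] at h4
      have h5 : (B : ℝ) < 1 + ((B ^ 2 : ℕ) : ℝ) * (1 / (B - 1)) := by
        have h6 : 0 < (B : ℝ) - 1 := by linarith
        rw [← sub_pos]
        have : 1 + ((B ^ 2 : ℕ) : ℝ) * (1 / (B - 1)) - B = (2 * B - 1) / (B - 1) := by
          push_cast
          field_simp
          ring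
        rw [this]
        apply div_pos <;> linarith
      linarith
    · exact Real.rpow_inv_natCast_pow (by positivity) hp.ne'

lemma exists_level {X : Finset ℂ} {B : ℕ} (hB : 32 ≤ B) {z : ℂ} (h0 : 0 < tau X z)
    (h3 : tau X z ≤ 3) : ∃ M, sc B (M + 1) < tau X z / 32 ∧ tau X z / 32 ≤ sc B M := by
  have hB1 : (32 : ℝ) ≤ B := by exact_mod_cast hB
  obtain ⟨m, hm1, hm2⟩ := exists_nat_pow_near_of_lt_one (x := tau X z / 32)
    (y := (B : ℝ)⁻¹) (by positivity) (by linarith) (by positivity)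
    (inv_lt_one_of_one_lt₀ (by linarith))
  refine ⟨m, ?_, ?_⟩
  · unfold sc; rwa [inv_pow] at hm1
  · unfold sc; rwa [inv_pow] at hm2

theorem exists_kernel {c : ℝ} (hc : 0 < c) : ∃ c1 C : ℝ, 0 < c1 ∧ c1 ≤ 1 / 48 ∧ 1 ≤ C ∧
    ∀ X : Finset ℂ, X.Nonempty → (∀ x ∈ X, ‖x‖ < 1) → KC c X →
    ∃ G : ℂ → ℂ, ∀ z0 : ℂ, ‖z0‖ ≤ 1 → DifferentiableOn ℂ G (ball z0 (c1 * tau X z0)) ∧
      ∀ z ∈ ball z0 (c1 * tau X z0), C⁻¹ ≤ tau X z0 * ‖G z‖ ∧ tau X z0 * ‖G z‖ ≤ C := by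
  classical
  obtain ⟨B, hB, hcB, p, hp, θ, hθ1, hθ2, hθp⟩ := exists_params hc
  have hB1 : (32 : ℝ) ≤ B := by exact_mod_cast hB
  have hB0 : (0 : ℝ) < B := by linarith
  have hu : 0 < 1 - θ / B * (B - 1) := by linarith
  have hθm : 0 < θ - 1 := by linarith
  have hθB : 0 < θ * B - 1 := by nlinarith
  set C1 : ℝ := 3 * (22 * B / (1 - θ / B * (B - 1)) * (θ / (θ - 1))) with hC1
  set C2 : ℝ := 18 * (22 * B ^ 2 / (1 - θ / B * (B - 1)) * (θ * B / (θ * B - 1))) with hC2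
  have hC1p : 0 < C1 := by positivity
  have hC2p : 0 < C2 := by positivity
  set c1 : ℝ := min (1 / 48) (1 / (200 * θ) / (32 * C2)) with hc1
  have hc1p : 0 < c1 := lt_min (by norm_num) (by positivity)
  have hc1l : c1 ≤ 1 / 48 := min_le_left _ _
  have hc1r : 32 * c1 * C2 ≤ 1 / (200 * θ) := by
    have : c1 ≤ 1 / (200 * θ) / (32 * C2) := min_le_right _ _
    rw [le_div_iff₀ (by positivity)] at this
    linarith
  set Ca : ℝ := (C1 + 1) ^ p * 32 with hCa
  set Cb : ℝ := (200 * θ) ^ p * B with hCb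
  refine ⟨c1, Ca + Cb, hc1p, hc1l, ?_, ?_⟩
  · have h1 : 1 ≤ (C1 + 1) ^ p := one_le_pow₀ (by linarith)
    have h2 : 0 < Cb := by positivity
    rw [hCa]
    linarith
  intro X hX hX1 hK
  -- the minimal distance to the circle
  obtain ⟨d, hd0, hd⟩ : ∃ d : ℝ, 0 < d ∧ ∀ x ∈ X, d ≤ 1 - ‖x‖ := by
    obtain ⟨x, hx, hmin⟩ := X.exists_min_image (fun x => 1 - ‖x‖) hX
    exact ⟨1 - ‖x‖, by linarith [hX1 x hx], hmin⟩
  obtain ⟨n, hn⟩ := exists_pow_lt_of_lt_one (x := d / 32) (y := (B : ℝ)⁻¹) (by positivity)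
    (inv_lt_one_of_one_lt₀ (by linarith))
  have hn' : sc B n < d / 32 := by unfold sc; rwa [inv_pow] at hn
  refine ⟨fun z => Hf B θ X n z ^ p, fun z0 hz0 => ?_⟩
  have hτ0 := tau_pos hX hX1 z0
  have hτ3 := tau_le_three hX hX1 z0
  obtain ⟨M, hM1, hM2⟩ := exists_level hB hτ0 hτ3
  have hMn : M < n := by
    by_contra hcon
    have h1 : sc B M ≤ sc B n := sc_anti (by omega) (by omega)
    obtain ⟨x, hx, _, h3⟩ := exists_tau hX z0
    have := hd x hx
    linarith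
  constructor
  · exact (differentiableOn_Hf hB hz0 n (by nlinarith)).pow p
  · intro z hz
    rw [mem_ball, dist_eq_norm] at hz
    have h1 := norm_Hf_le hB hcB hθ1 hθ2 hK hz0 hM1 n
    have h2 := norm_Hf_sub_le hB hcB hθ1 hθ2 hK hz0 (z := z) (by nlinarith) hM1 n
    have h3 := le_norm_Hf hB hθ1 hX hX1 hz0 hMn hM2
    rw [← hC1] at h1
    rw [← hC2] at h2
    have hθM : 0 < θ ^ M := by positivity
    have h4 : ‖Hf B θ X n z - Hf B θ X n z0‖ ≤ θ ^ M / (200 * θ) := by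
      refine h2.trans ?_
      have h5 : tau X z0 * (B : ℝ) ^ M ≤ 32 := by
        have h6 : sc B M * (B : ℝ) ^ M = 1 := by
          unfold sc; exact inv_mul_cancel₀ (by positivity)
        have h7 : tau X z0 ≤ 32 * sc B M := by linarith
        calc tau X z0 * (B : ℝ) ^ M ≤ 32 * sc B M * (B : ℝ) ^ M := by gcongr
          _ = 32 * (sc B M * (B : ℝ) ^ M) := by ring
          _ = 32 := by rw [h6, mul_one]
      calc ‖z - z0‖ * (C2 * (θ * B) ^ M) ≤ (c1 * tau X z0) * (C2 * (θ * B) ^ M) := by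
            gcongr
        _ = (tau X z0 * (B : ℝ) ^ M) * (c1 * C2) * θ ^ M := by rw [mul_pow]; ring
        _ ≤ 32 * (c1 * C2) * θ ^ M := by gcongr
        _ = (32 * c1 * C2) * θ ^ M := by ring
        _ ≤ 1 / (200 * θ) * θ ^ M := by gcongr
        _ = _ := by ring
    have h5 : θ ^ M / (200 * θ) ≤ ‖Hf B θ X n z‖ := by
      have h6 : ‖Hf B θ X n z0‖ ≤ ‖Hf B θ X n z‖ + ‖Hf B θ X n z - Hf B θ X n z0‖ := by
        have : Hf B θ X n z0 = Hf B θ X n z - (Hf B θ X n z - Hf B θ X n z0) := by ring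
        calc _ = ‖Hf B θ X n z - (Hf B θ X n z - Hf B θ X n z0)‖ := by rw [← this]
          _ ≤ _ := norm_sub_le _ _
      have h7 : θ ^ M / (100 * θ) = θ ^ M / (200 * θ) + θ ^ M / (200 * θ) := by
        field_simp
        norm_num
      linarith
    have h6 : ‖Hf B θ X n z‖ ≤ (C1 + 1) * θ ^ M := by
      have h7 : ‖Hf B θ X n z‖ ≤ ‖Hf B θ X n z0‖ + ‖Hf B θ X n z - Hf B θ X n z0‖ := by
        have : Hf B θ X n z = Hf B θ X n z0 + (Hf B θ X n z - Hf B θ X n z0) := by ring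
        calc _ = ‖Hf B θ X n z0 + (Hf B θ X n z - Hf B θ X n z0)‖ := by rw [← this]
          _ ≤ _ := norm_add_le _ _
      have h8 : θ ^ M / (200 * θ) ≤ 1 * θ ^ M := by
        rw [div_le_iff₀ (by positivity)]
        nlinarith
      linarith
    have hBM : (θ ^ M) ^ p = (B : ℝ) ^ M := by rw [← pow_mul, mul_comm, pow_mul, hθp]
    have hCa0 : 0 < Ca := by positivity
    have hCb0 : 0 < Cb := by positivity
    constructor
    · rw [norm_pow]
      have h7 : (θ ^ M / (200 * θ)) ^ p ≤ ‖Hf B θ X n z‖ ^ p := by gcongr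
      rw [div_pow, hBM] at h7
      have h8 : 32 < tau X z0 * (B : ℝ) ^ (M + 1) := by
        have h9 : sc B (M + 1) * (B : ℝ) ^ (M + 1) = 1 := by
          unfold sc; exact inv_mul_cancel₀ (by positivity)
        have h10 : sc B (M + 1) * (B : ℝ) ^ (M + 1) < tau X z0 / 32 * (B : ℝ) ^ (M + 1) := by
          gcongr
        rw [h9] at h10
        linarith
      rw [pow_succ] at h8
      have h9 : (Ca + Cb)⁻¹ ≤ Cb⁻¹ := inv_anti₀ hCb0 (by linarith)
      refine h9.trans ?_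
      rw [inv_le_iff_one_le_mul₀ hCb0]
      have h10 : tau X z0 * ((B : ℝ) ^ M / (200 * θ) ^ p) * Cb =
          tau X z0 * (B ^ M * B) := by
        rw [hCb]; field_simp
      calc (1 : ℝ) ≤ tau X z0 * ((B : ℝ) ^ M / (200 * θ) ^ p) * Cb := by rw [h10]; linarith
        _ ≤ _ := by gcongr
    · rw [norm_pow]
      have h7 : ‖Hf B θ X n z‖ ^ p ≤ ((C1 + 1) * θ ^ M) ^ p := by gcongr
      rw [mul_pow, hBM] at h7
      have h8 : tau X z0 * (B : ℝ) ^ M ≤ 32 := by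
        have h6 : sc B M * (B : ℝ) ^ M = 1 := by
          unfold sc; exact inv_mul_cancel₀ (by positivity)
        have h7 : tau X z0 ≤ 32 * sc B M := by linarith
        calc tau X z0 * (B : ℝ) ^ M ≤ 32 * sc B M * (B : ℝ) ^ M := by gcongr
          _ = 32 * (sc B M * (B : ℝ) ^ M) := by ring
          _ = 32 := by rw [h6, mul_one]
      calc tau X z0 * ‖Hf B θ X n z‖ ^ p ≤ tau X z0 * ((C1 + 1) ^ p * (B : ℝ) ^ M) := by gcongr
        _ = (C1 + 1) ^ p * (tau X z0 * (B : ℝ) ^ M) := by ring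
        _ ≤ (C1 + 1) ^ p * 32 := by gcongr
        _ ≤ Ca + Cb := by rw [hCa]; linarith

end Pool.Agent.H85.ZI
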