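import Mathlib
import Pool.Agent.H85.ZI.Kernel3

/-!
# The Carleson type sum
-/

namespace Pool.Agent.H85.ZI

open Complex Metric Set Finset

/-- The separation condition. -/
def Sep (C : ℝ) (X : Finset ℂ) : Prop :=
  ∀ x ∈ X, ∀ y ∈ X, ∀ z ∈ X, x ≠ y → y ≠ z → x ≠ z → 1 - ‖x‖ ≤ C * max ‖x - y‖ ‖x - z‖

lemma card_Icc_floor {a r h : ℝ} {N : ℕ} (hN : 2 * r / h + 2 ≤ N) :
    (Finset.Icc ⌊(a - r) / h⌋ ⌊(a + r) / h⌋).card ≤ N := by
  rw [Int.card_Icc]
  have h1 := Int.floor_le ((a + r) / h)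
  have h2 := Int.lt_floor_add_one ((a - r) / h)
  have h3 : ((a + r) / h) - ((a - r) / h) = 2 * r / h := by ring
  have h4 : ((⌊(a + r) / h⌋ + 1 - ⌊(a - r) / h⌋ : ℤ) : ℝ) ≤ (N : ℤ) := by
    push_cast
    linarith
  have h5 : ⌊(a + r) / h⌋ + 1 - ⌊(a - r) / h⌋ ≤ (N : ℤ) := by exact_mod_cast h4
  omega

lemma abs_sub_lt_of_floor_eq {a b h : ℝ} (hh : 0 < h) (hab : ⌊a / h⌋ = ⌊b / h⌋) :
    |a - b| < h := by
  have h1 := Int.abs_sub_lt_one_of_floor_eq_floor hab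
  rw [← sub_div, abs_div, abs_of_pos hh, div_lt_one hh] at h1
  exact h1

lemma card_cells {S : Finset ℂ} {a : ℂ} {r h : ℝ} (hh : 0 < h) (hr : 0 ≤ r) {N : ℕ}
    (hN : 2 * r / h + 2 ≤ N)
    (hS : ∀ x ∈ S, ‖x - a‖ ≤ r)
    (hcell : ∀ x ∈ S, ∀ y ∈ S, ∀ z ∈ S, x ≠ y → y ≠ z → x ≠ z →
      ¬ (max ‖x - y‖ ‖x - z‖ < 2 * h)) : S.card ≤ 2 * (N * N) := by
  classical
  have hmap : ∀ x ∈ S, ((⌊x.re / h⌋, ⌊x.im / h⌋) : ℤ × ℤ) ∈
      (Finset.Icc ⌊(a.re - r) / h⌋ ⌊(a.re + r) / h⌋) ×ˢ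
      (Finset.Icc ⌊(a.im - r) / h⌋ ⌊(a.im + r) / h⌋) := by
    intro x hx
    have h1 := (Complex.abs_re_le_norm (x - a)).trans (hS x hx)
    have h2 := (Complex.abs_im_le_norm (x - a)).trans (hS x hx)
    rw [Complex.sub_re, abs_le] at h1
    rw [Complex.sub_im, abs_le] at h2
    rw [Finset.mem_product, Finset.mem_Icc, Finset.mem_Icc]
    refine ⟨⟨?_, ?_⟩, ⟨?_, ?_⟩⟩ <;> apply Int.floor_le_floor <;>
      apply div_le_div_of_nonneg_right _ hh.le <;> linarith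
  have h1 := Finset.card_le_mul_card_image_of_maps_to hmap 2 (by
    intro b hb
    by_contra hcon
    rw [not_le, Finset.two_lt_card] at hcon
    obtain ⟨x, hx, y, hy, z, hz, hxy, hxz, hyz⟩ := hcon
    rw [Finset.mem_filter] at hx hy hz
    have key : ∀ u v : ℂ, ((⌊u.re / h⌋, ⌊u.im / h⌋) : ℤ × ℤ) = b →
        ((⌊v.re / h⌋, ⌊v.im / h⌋) : ℤ × ℤ) = b → ‖u - v‖ < 2 * h := by
      intro u v hu hv
      rw [← hv, Prod.mk.injEq] at hu
      have h3 := abs_sub_lt_of_floor_eq hh hu.1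
      have h4 := abs_sub_lt_of_floor_eq hh hu.2
      have h5 := Complex.norm_le_abs_re_add_abs_im (u - v)
      rw [Complex.sub_re, Complex.sub_im] at h5
      linarith
    exact hcell x hx.1 y hy.1 z hz.1 hxy hyz hxz (max_lt (key x y hx.2 hy.2) (key x z hx.2 hz.2)))
  refine h1.trans ?_
  rw [Finset.card_product]
  exact Nat.mul_le_mul le_rfl (Nat.mul_le_mul (card_Icc_floor hN) (card_Icc_floor hN))

lemma normSq_one_sub (x z : ℂ) :
    ‖1 - (starRingEnd ℂ) x * z‖ ^ 2 = ‖x - z‖ ^ 2 + (1 - ‖x‖ ^ 2) * (1 - ‖z‖ ^ 2) := by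
  rw [← Complex.normSq_eq_norm_sq, ← Complex.normSq_eq_norm_sq, ← Complex.normSq_eq_norm_sq,
    ← Complex.normSq_eq_norm_sq]
  simp only [Complex.normSq_apply, Complex.sub_re, Complex.sub_im, Complex.one_re, Complex.one_im,
    Complex.mul_re, Complex.mul_im, Complex.conj_re, Complex.conj_im]
  ring

lemma norm_sub_le_one_sub {x z : ℂ} (hx : ‖x‖ ≤ 1) (hz : ‖z‖ ≤ 1) :
    ‖x - z‖ ≤ ‖1 - (starRingEnd ℂ) x * z‖ := by
  have h1 := normSq_one_sub x z
  have h2 : 0 ≤ (1 - ‖x‖ ^ 2) * (1 - ‖z‖ ^ 2) := by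
    have := norm_nonneg x
    have := norm_nonneg z
    apply mul_nonneg <;> nlinarith
  exact le_of_sq_le_sq (by linarith) (norm_nonneg _)

lemma one_sub_norm_le {x z : ℂ} (hz : ‖z‖ ≤ 1) :
    1 - ‖x‖ ≤ ‖1 - (starRingEnd ℂ) x * z‖ := by
  have h1 := norm_sub_norm_le (1 : ℂ) ((starRingEnd ℂ) x * z)
  rw [norm_one, norm_mul, RCLike.norm_conj] at h1
  have := norm_nonneg x
  nlinarith

lemma one_sub_norm_le' {x z : ℂ} (hx : ‖x‖ ≤ 1) :
    1 - ‖z‖ ≤ ‖1 - (starRingEnd ℂ) x * z‖ := by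
  have h1 := norm_sub_norm_le (1 : ℂ) ((starRingEnd ℂ) x * z)
  rw [norm_one, norm_mul, RCLike.norm_conj] at h1
  have := norm_nonneg z
  nlinarith

theorem carleson_sum {c : ℝ} (hc : 0 < c) (C : ℝ) : ∃ K : ℝ, 0 < K ∧ ∀ X : Finset ℂ,
    X.Nonempty → (∀ x ∈ X, ‖x‖ < 1) → KC c X → Sep C X → ∀ z : ℂ, ‖z‖ ≤ 1 →
    tau X z * ∑ x ∈ X, (1 - ‖x‖) / ‖1 - (starRingEnd ℂ) x * z‖ ^ 2 ≤ K := by
  classical
  obtain ⟨B, hB, hcB, -⟩ := exists_params hc
  have hB1 : (32 : ℝ) ≤ B := by exact_mod_cast hB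
  have hB0 : (0 : ℝ) < B := by linarith
  set C' : ℝ := max C 1 with hC'
  have hC'1 : 1 ≤ C' := le_max_right _ _
  obtain ⟨N, hN⟩ := exists_nat_ge (32 * B * C' + 2)
  set K0 : ℝ := 22 * B ^ 2 / (1 - 1 / B * (B - 1)) * (B / (B - 1)) with hK0
  have hBi : 0 < 1 - 1 / (B : ℝ) * (B - 1) := by
    have : 1 - 1 / (B : ℝ) * (B - 1) = 1 / B := by field_simp; ring
    rw [this]; positivity
  have hBm : 0 < (B : ℝ) - 1 := by linarith
  have hK0p : 0 < K0 := by positivity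
  have hNp : (0 : ℝ) < N := by nlinarith
  refine ⟨(2 * (N * N)) * (18 * B) ^ 2 * (32 * K0), by positivity, ?_⟩
  intro X hX hX1 hK hS z hz
  -- the node of a point
  have hnode : ∀ x : ℂ, ∃ w : (_ : ℕ) × ℕ, x ∈ X → (w.2 ∈ W B X w.1 ∧
      sc B (w.1 + 1) < 1 - ‖x‖ ∧ 1 - ‖x‖ ≤ sc B w.1 ∧ ‖x - nd B w.1 w.2‖ ≤ 8 * sc B w.1) := by
    intro x
    by_cases hx : x ∈ X
    · have hx1 := hX1 x hx
      obtain ⟨k, hk1, hk2⟩ := exists_nat_pow_near_of_lt_one (x := 1 - ‖x‖)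
        (y := (B : ℝ)⁻¹) (by linarith) (by linarith [norm_nonneg x]) (by positivity)
        (inv_lt_one_of_one_lt₀ (by linarith))
      have e1 : ((B : ℝ)⁻¹) ^ (k + 1) = sc B (k + 1) := by unfold sc; rw [inv_pow]
      have e2 : ((B : ℝ)⁻¹) ^ k = sc B k := by unfold sc; rw [inv_pow]
      rw [e1] at hk1
      rw [e2] at hk2
      obtain ⟨j, hj, hj2⟩ := exists_near_node (B := B) (by omega) k x
      rw [abs_of_pos (by linarith)] at hj2
      have hs := sc_pos (B := B) (by omega) k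
      have hpi := Real.pi_lt_d2
      have h4 : ‖x - nd B k j‖ ≤ 8 * sc B k := by nlinarith
      refine ⟨⟨k, j⟩, fun _ => ⟨?_, hk1, hk2, h4⟩⟩
      simp only [W, Finset.mem_filter, Finset.mem_range]
      exact ⟨hj, x, hx, h4⟩
    · exact ⟨⟨0, 0⟩, fun h => absurd h hx⟩
  choose w hw using hnode
  set n : ℕ := X.sup (fun x => (w x).1) + 1 with hn
  have hwn : ∀ x ∈ X, (w x).1 < n := fun x hx => by
    have := Finset.le_sup (f := fun x => (w x).1) hx
    omega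
  set T : Finset ((_ : ℕ) × ℕ) := (Finset.range n).sigma (fun k => W B X k) with hT
  have hmaps : ∀ x ∈ X, w x ∈ T := fun x hx => by
    rw [hT, Finset.mem_sigma, Finset.mem_range]
    exact ⟨hwn x hx, (hw x hx).1⟩
  have hτ0 := tau_pos hX hX1 z
  have hτ3 := tau_le_three hX hX1 z
  obtain ⟨M, hM1, hM2⟩ := exists_level hB hτ0 hτ3
  -- the sum over the nodes
  have hsum := sum_nodes_le (u := 1 / B) (by omega : 5 ≤ B) hcB hK (by positivity) 2
    (by linarith) (by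
      have : 1 / (B : ℝ) * (B : ℝ) ^ 2 = B := by field_simp
      rw [this]; linarith) (by linarith) (nodes_lt (B := B) hM1) n
  have e3 : 1 / (B : ℝ) * (B : ℝ) ^ 2 = B := by field_simp
  rw [e3] at hsum
  have hsum' : tau X z * ∑ k ∈ Finset.range n, ∑ j ∈ W B X k,
      (1 / (B : ℝ)) ^ k / rho B k j z ^ 2 ≤ 32 * K0 := by
    have h5 : tau X z * (B : ℝ) ^ M ≤ 32 := by
      have h6 : sc B M * (B : ℝ) ^ M = 1 := by
        unfold sc; exact inv_mul_cancel₀ (by positivity)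
      have h7 : tau X z ≤ 32 * sc B M := by linarith
      calc tau X z * (B : ℝ) ^ M ≤ 32 * sc B M * (B : ℝ) ^ M := by gcongr
        _ = 32 * (sc B M * (B : ℝ) ^ M) := by ring
        _ = 32 := by rw [h6, mul_one]
    calc _ ≤ tau X z * (22 * B ^ 2 / (1 - 1 / B * (B - 1)) * (B ^ (M + 1) / (B - 1))) := by
          gcongr
      _ = (tau X z * (B : ℝ) ^ M) * K0 := by rw [hK0, pow_succ]; ring
      _ ≤ 32 * K0 := by gcongr
  -- pointwise bound
  have hpt : ∀ x ∈ X, (1 - ‖x‖) / ‖1 - (starRingEnd ℂ) x * z‖ ^ 2 ≤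
      (18 * B) ^ 2 * ((1 / (B : ℝ)) ^ (w x).1 / rho B (w x).1 (w x).2 z ^ 2) := by
    intro x hx
    obtain ⟨h1, h2, h3, h4⟩ := hw x hx
    have hx1 := hX1 x hx
    have hs := sc_pos (B := B) (by omega) (w x).1
    have hr := rho_pos (B := B) (by omega) (w x).1 (w x).2 z
    have h5 := norm_sub_le_one_sub hx1.le hz
    have h6 := one_sub_norm_le (x := x) hz
    have h7 : sc B (w x).1 ≤ B * (1 - ‖x‖) := by
      rw [sc_succ, div_lt_iff₀ hB0] at h2
      linarith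
    have h8 : rho B (w x).1 (w x).2 z ≤ 18 * B * ‖1 - (starRingEnd ℂ) x * z‖ := by
      unfold rho
      have h9 : ‖nd B (w x).1 (w x).2 - z‖ ≤ ‖x - nd B (w x).1 (w x).2‖ + ‖x - z‖ := by
        have : nd B (w x).1 (w x).2 - z = (x - z) - (x - nd B (w x).1 (w x).2) := by ring
        rw [this]
        refine (norm_sub_le _ _).trans (by rw [add_comm])
      nlinarith
    have h9 : 0 < ‖1 - (starRingEnd ℂ) x * z‖ := by linarith
    have h10 : (1 / (B : ℝ)) ^ (w x).1 = sc B (w x).1 := by unfold sc; rw [one_div, inv_pow]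
    rw [h10, ← mul_div_assoc, div_le_div_iff₀ (by positivity) (by positivity)]
    calc (1 - ‖x‖) * rho B (w x).1 (w x).2 z ^ 2 ≤
          sc B (w x).1 * (18 * B * ‖1 - (starRingEnd ℂ) x * z‖) ^ 2 := by
            have : 0 ≤ 1 - ‖x‖ := by linarith
            gcongr
      _ = _ := by ring
  -- fibres
  have hfib : ∀ v ∈ T, ((X.filter (fun x => w x = v)).card : ℝ) ≤ 2 * (N * N) := by
    intro v _
    have hs := sc_pos (B := B) (by omega) v.1
    have h1 : (X.filter (fun x => w x = v)).card ≤ 2 * (N * N) := by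
      refine card_cells (a := nd B v.1 v.2) (r := 8 * sc B v.1) (h := sc B v.1 / (2 * B * C'))
        (by positivity) (by positivity) (N := N) ?_ ?_ ?_
      · refine le_trans (le_of_eq ?_) hN
        field_simp
        ring
      · intro x hx
        rw [Finset.mem_filter] at hx
        have := (hw x hx.1).2.2.2
        rwa [hx.2] at this
      · intro x hx y hy y' hy' hxy hyy' hxy'
        rw [Finset.mem_filter] at hx hy hy'
        rw [not_lt]
        have h2 := hS x hx.1 y hy.1 y' hy'.1 hxy hyy' hxy'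
        have h3 := (hw x hx.1).2.1
        rw [hx.2, sc_succ] at h3
        set m := max ‖x - y‖ ‖x - y'‖
        have hm : 0 ≤ m := le_max_of_le_left (norm_nonneg _)
        have h4 : 1 - ‖x‖ ≤ C' * m := h2.trans (by gcongr; exact le_max_left _ _)
        have h5 : sc B v.1 / B ≤ C' * m := by linarith
        rw [div_le_iff₀ hB0] at h5
        have h6 : 2 * (sc B v.1 / (2 * B * C')) = sc B v.1 / (B * C') := by field_simp
        rw [h6, div_le_iff₀ (by positivity)]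
        linarith
    exact_mod_cast h1
  calc tau X z * ∑ x ∈ X, (1 - ‖x‖) / ‖1 - (starRingEnd ℂ) x * z‖ ^ 2
      ≤ tau X z * ∑ x ∈ X, (18 * B) ^ 2 *
        ((1 / (B : ℝ)) ^ (w x).1 / rho B (w x).1 (w x).2 z ^ 2) := by
        gcongr with x hx
        exact hpt x hx
    _ = tau X z * ∑ v ∈ T, ∑ x ∈ X with w x = v, (18 * B) ^ 2 *
        ((1 / (B : ℝ)) ^ (w x).1 / rho B (w x).1 (w x).2 z ^ 2) := by
        rw [Finset.sum_fiberwise_of_maps_to hmaps]
    _ ≤ tau X z * ∑ v ∈ T, (2 * (N * N)) * ((18 * B) ^ 2 *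
        ((1 / (B : ℝ)) ^ v.1 / rho B v.1 v.2 z ^ 2)) := by
        gcongr with v hv
        have h1 : ∑ x ∈ X with w x = v, (18 * (B : ℝ)) ^ 2 *
            ((1 / (B : ℝ)) ^ (w x).1 / rho B (w x).1 (w x).2 z ^ 2) =
            ((X.filter (fun x => w x = v)).card : ℝ) * ((18 * B) ^ 2 *
            ((1 / (B : ℝ)) ^ v.1 / rho B v.1 v.2 z ^ 2)) := by
          rw [← nsmul_eq_mul, ← Finset.sum_const]
          refine Finset.sum_congr rfl fun x hx => ?_
          rw [Finset.mem_filter] at hx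
          rw [hx.2]
        rw [h1]
        have hr := rho_pos (B := B) (by omega) v.1 v.2 z
        have := hfib v hv
        gcongr
    _ = (2 * (N * N)) * (18 * B) ^ 2 * (tau X z * ∑ k ∈ Finset.range n, ∑ j ∈ W B X k,
      (1 / (B : ℝ)) ^ k / rho B k j z ^ 2) := by
        rw [hT, Finset.sum_sigma, Finset.mul_sum, Finset.mul_sum, Finset.mul_sum]
        refine Finset.sum_congr rfl fun k _ => ?_
        rw [Finset.mul_sum, Finset.mul_sum, Finset.mul_sum]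
        refine Finset.sum_congr rfl fun j _ => ?_
        ring
    _ ≤ _ := by gcongr

end Pool.Agent.H85.ZI
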