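import Mathlib
import Pool.Agent.H85.ZI.Carleson

/-!
# Blaschke products and the basic interpolation step
-/

namespace Pool.Agent.H85.ZI

open Complex Metric Set Finset

/-- The Blaschke factor. -/
noncomputable def bl (y z : ℂ) : ℂ := (z - y) / (1 - (starRingEnd ℂ) y * z)

lemma one_sub_ne {y z : ℂ} (hy : ‖y‖ < 1) (hz : ‖z‖ ≤ 1) : 1 - (starRingEnd ℂ) y * z ≠ 0 := by
  have h := one_sub_norm_le (x := y) hz
  exact norm_pos_iff.1 (by linarith)

lemma norm_bl_sq {y z : ℂ} (h : 1 - (starRingEnd ℂ) y * z ≠ 0) :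
    ‖bl y z‖ ^ 2 = 1 - (1 - ‖y‖ ^ 2) * (1 - ‖z‖ ^ 2) / ‖1 - (starRingEnd ℂ) y * z‖ ^ 2 := by
  have h1 := normSq_one_sub y z
  have h2 : 0 < ‖1 - (starRingEnd ℂ) y * z‖ ^ 2 := by
    have := norm_pos_iff.2 h
    positivity
  rw [bl, norm_div, div_pow, eq_sub_iff_add_eq, ← add_div, div_eq_one_iff_eq h2.ne', h1,
    norm_sub_rev]

lemma tau_le_two {X : Finset ℂ} {y z : ℂ} (hy : y ∈ X) (hy1 : ‖y‖ < 1) (hz : ‖z‖ ≤ 1) :
    tau X z ≤ 2 * ‖1 - (starRingEnd ℂ) y * z‖ := by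
  have h1 : infDist z (X : Set ℂ) ≤ dist z y := infDist_le_dist_of_mem (by exact_mod_cast hy)
  rw [dist_eq_norm, norm_sub_rev] at h1
  have h2 := norm_sub_le_one_sub hy1.le hz
  have h3 := one_sub_norm_le' (z := z) hy1.le
  unfold tau
  linarith

lemma half_le {X : Finset ℂ} {y z0 z : ℂ} (hy : y ∈ X) (hy1 : ‖y‖ < 1) (hz : ‖z0‖ ≤ 1)
    (hzz : 48 * ‖z - z0‖ ≤ tau X z0) :
    ‖1 - (starRingEnd ℂ) y * z0‖ ≤ 2 * ‖1 - (starRingEnd ℂ) y * z‖ := by
  have h1 := tau_le_two hy hy1 hz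
  have h2 : ‖1 - (starRingEnd ℂ) y * z0‖ ≤ ‖1 - (starRingEnd ℂ) y * z‖ + ‖z - z0‖ := by
    have e : 1 - (starRingEnd ℂ) y * z0 = (1 - (starRingEnd ℂ) y * z) +
      (starRingEnd ℂ) y * (z - z0) := by ring
    rw [e]
    refine (norm_add_le _ _).trans ?_
    rw [norm_mul, RCLike.norm_conj]
    have := norm_nonneg (z - z0)
    nlinarith
  linarith [norm_nonneg (1 - (starRingEnd ℂ) y * z0)]

lemma norm_bl_sq_le {X : Finset ℂ} {y z0 z : ℂ} (hy : y ∈ X) (hy1 : ‖y‖ < 1) (hz : ‖z0‖ ≤ 1)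
    (hzz : 48 * ‖z - z0‖ ≤ tau X z0) (hτ : tau X z0 ≤ 3) :
    ‖bl y z‖ ^ 2 ≤ Real.exp (24 * ‖z - z0‖ * ((1 - ‖y‖) / ‖1 - (starRingEnd ℂ) y * z0‖ ^ 2)) := by
  have h1 := half_le hy hy1 hz hzz
  have h2 := one_sub_norm_le (x := y) hz
  have h3 : 0 < ‖1 - (starRingEnd ℂ) y * z0‖ := by linarith
  have h4 : 0 < ‖1 - (starRingEnd ℂ) y * z‖ := by linarith
  rw [norm_bl_sq (norm_pos_iff.1 h4)]
  have h5 : ‖z‖ ≤ ‖z0‖ + ‖z - z0‖ := by
    have : z = z0 + (z - z0) := by ring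
    calc ‖z‖ = ‖z0 + (z - z0)‖ := by rw [← this]
      _ ≤ _ := norm_add_le _ _
  have hn := norm_nonneg (z - z0)
  have hnz := norm_nonneg z
  have h6 : ‖z‖ ^ 2 - 1 ≤ 3 * ‖z - z0‖ := by nlinarith
  have hny := norm_nonneg y
  have h7 : - ((1 - ‖y‖ ^ 2) * (1 - ‖z‖ ^ 2) / ‖1 - (starRingEnd ℂ) y * z‖ ^ 2) ≤
      24 * ‖z - z0‖ * ((1 - ‖y‖) / ‖1 - (starRingEnd ℂ) y * z0‖ ^ 2) := by
    have e1 : - ((1 - ‖y‖ ^ 2) * (1 - ‖z‖ ^ 2) / ‖1 - (starRingEnd ℂ) y * z‖ ^ 2) =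
        (1 - ‖y‖ ^ 2) * (‖z‖ ^ 2 - 1) / ‖1 - (starRingEnd ℂ) y * z‖ ^ 2 := by ring
    rw [e1]
    have h8 : 0 ≤ 1 - ‖y‖ ^ 2 := by nlinarith
    have h9 : 1 - ‖y‖ ^ 2 ≤ 2 * (1 - ‖y‖) := by nlinarith
    have h10 : (1 - ‖y‖ ^ 2) * (‖z‖ ^ 2 - 1) ≤ 6 * ‖z - z0‖ * (1 - ‖y‖) := by
      calc (1 - ‖y‖ ^ 2) * (‖z‖ ^ 2 - 1) ≤ (1 - ‖y‖ ^ 2) * (3 * ‖z - z0‖) := by gcongr
        _ ≤ (2 * (1 - ‖y‖)) * (3 * ‖z - z0‖) := by gcongr
        _ = _ := by ring
    have h11 : 0 ≤ 6 * ‖z - z0‖ * (1 - ‖y‖) := by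
      have : 0 ≤ 1 - ‖y‖ := by linarith
      positivity
    calc _ ≤ 6 * ‖z - z0‖ * (1 - ‖y‖) / ‖1 - (starRingEnd ℂ) y * z‖ ^ 2 := by gcongr
      _ ≤ 6 * ‖z - z0‖ * (1 - ‖y‖) / (‖1 - (starRingEnd ℂ) y * z0‖ / 2) ^ 2 := by
          gcongr
          linarith
      _ = _ := by field_simp; ring
  have h12 := Real.add_one_le_exp (24 * ‖z - z0‖ *
    ((1 - ‖y‖) / ‖1 - (starRingEnd ℂ) y * z0‖ ^ 2))
  linarith

/-- Upper bound for the products. -/
lemma prod_bl_le {X : Finset ℂ} {K : ℝ} (hX1 : ∀ x ∈ X, ‖x‖ < 1) {z0 z : ℂ} (hz : ‖z0‖ ≤ 1)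
    (hK : tau X z0 * ∑ x ∈ X, (1 - ‖x‖) / ‖1 - (starRingEnd ℂ) x * z0‖ ^ 2 ≤ K)
    (hzz : 48 * ‖z - z0‖ ≤ tau X z0) (hτ : tau X z0 ≤ 3) {S : Finset ℂ} (hS : S ⊆ X) :
    ‖∏ y ∈ S, bl y z‖ ≤ Real.exp (K / 4) := by
  have h1 : ‖∏ y ∈ S, bl y z‖ ^ 2 ≤ Real.exp (K / 2) := by
    rw [norm_prod, ← Finset.prod_pow]
    calc ∏ y ∈ S, ‖bl y z‖ ^ 2 ≤ ∏ y ∈ S, Real.exp (24 * ‖z - z0‖ *
          ((1 - ‖y‖) / ‖1 - (starRingEnd ℂ) y * z0‖ ^ 2)) := by
          refine Finset.prod_le_prod (fun y _ => by positivity) fun y hy => ?_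
          exact norm_bl_sq_le (hS hy) (hX1 y (hS hy)) hz hzz hτ
      _ = Real.exp (24 * ‖z - z0‖ * ∑ y ∈ S,
          ((1 - ‖y‖) / ‖1 - (starRingEnd ℂ) y * z0‖ ^ 2)) := by
          rw [← Real.exp_sum, Finset.mul_sum]
      _ ≤ Real.exp (K / 2) := by
          apply Real.exp_le_exp.2
          have h2 : ∑ y ∈ S, ((1 - ‖y‖) / ‖1 - (starRingEnd ℂ) y * z0‖ ^ 2) ≤
              ∑ y ∈ X, ((1 - ‖y‖) / ‖1 - (starRingEnd ℂ) y * z0‖ ^ 2) := by
            refine Finset.sum_le_sum_of_subset_of_nonneg hS fun y hy _ => ?_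
            have := hX1 y hy
            have h3 : 0 ≤ 1 - ‖y‖ := by linarith
            positivity
          have h0 : 0 ≤ ∑ y ∈ S, ((1 - ‖y‖) / ‖1 - (starRingEnd ℂ) y * z0‖ ^ 2) := by
            refine Finset.sum_nonneg fun y hy => ?_
            have := hX1 y (hS hy)
            have h3 : 0 ≤ 1 - ‖y‖ := by linarith
            positivity
          have h00 := norm_nonneg (z - z0)
          calc 24 * ‖z - z0‖ * ∑ y ∈ S, ((1 - ‖y‖) / ‖1 - (starRingEnd ℂ) y * z0‖ ^ 2)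
              ≤ (tau X z0 / 2) * ∑ y ∈ X, ((1 - ‖y‖) / ‖1 - (starRingEnd ℂ) y * z0‖ ^ 2) := by
                gcongr
                · linarith
                · linarith
            _ ≤ K / 2 := by linarith
  have h2 : Real.exp (K / 2) = Real.exp (K / 4) ^ 2 := by
    rw [← Real.exp_nat_mul]
    congr 1
    push_cast
    ring
  rw [h2] at h1
  exact le_of_sq_le_sq h1 (Real.exp_pos _).le

/-- Lower bound for the products. -/
lemma le_prod_bl {X : Finset ℂ} {K C' : ℝ} (hC' : 1 ≤ C') (hX1 : ∀ x ∈ X, ‖x‖ < 1) {x : ℂ}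
    (hx : x ∈ X)
    (hK : tau X x * ∑ y ∈ X, (1 - ‖y‖) / ‖1 - (starRingEnd ℂ) y * x‖ ^ 2 ≤ K)
    {S : Finset ℂ} (hS : S ⊆ X) (hSx : ∀ y ∈ S, 1 - ‖x‖ ≤ C' * ‖x - y‖) :
    Real.exp (-(2 * (1 + 4 * (C' * (C' + 1))) * K)) ≤ ‖∏ y ∈ S, bl y x‖ := by
  set κ : ℝ := 1 + 4 * (C' * (C' + 1)) with hκ
  have hx1 := hX1 x hx
  have hδ : 0 < 1 - ‖x‖ := by linarith
  have hτ : tau X x = 1 - ‖x‖ := by
    unfold tau
    rw [infDist_zero_of_mem (by exact_mod_cast hx), zero_add]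
  rw [hτ] at hK
  have hκ1 : 1 ≤ κ := by nlinarith
  have h1 : Real.exp (-(4 * κ * K)) ≤ ‖∏ y ∈ S, bl y x‖ ^ 2 := by
    rw [norm_prod, ← Finset.prod_pow]
    have h2 : ∀ y ∈ S, Real.exp (-(κ * (4 * ((1 - ‖x‖) * ((1 - ‖y‖) /
        ‖1 - (starRingEnd ℂ) y * x‖ ^ 2))))) ≤ ‖bl y x‖ ^ 2 := by
      intro y hy
      have hy1 := hX1 y (hS hy)
      have hyδ : 0 < 1 - ‖y‖ := by linarith
      have hny := norm_nonneg y
      have hnx := norm_nonneg x
      have hd := hSx y hy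
      have hd0 : 0 < ‖x - y‖ := by
        by_contra hcon
        have : ‖x - y‖ = 0 := le_antisymm (not_lt.1 hcon) (norm_nonneg _)
        rw [this] at hd
        linarith
      have h3 := normSq_one_sub y x
      set P := (1 - ‖y‖ ^ 2) * (1 - ‖x‖ ^ 2) with hP
      have hP0 : 0 < P := by
        apply mul_pos <;> nlinarith
      have hP4 : P ≤ 4 * ((1 - ‖x‖) * (1 - ‖y‖)) := by
        calc P ≤ (2 * (1 - ‖y‖)) * (2 * (1 - ‖x‖)) := by
              rw [hP]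
              apply mul_le_mul <;> nlinarith
          _ = _ := by ring
      have hyx : 1 - ‖y‖ ≤ (1 - ‖x‖) + ‖x - y‖ := by
        have := norm_sub_norm_le x y
        linarith
      have hP5 : P ≤ 4 * (C' * (C' + 1)) * ‖x - y‖ ^ 2 := by
        refine hP4.trans ?_
        have h5 : 1 - ‖y‖ ≤ (C' + 1) * ‖x - y‖ := by linarith
        calc 4 * ((1 - ‖x‖) * (1 - ‖y‖)) ≤ 4 * ((C' * ‖x - y‖) * ((C' + 1) * ‖x - y‖)) := by
              gcongr
          _ = _ := by ring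
      have hN : 0 < ‖1 - (starRingEnd ℂ) y * x‖ ^ 2 := by
        rw [h3]; positivity
      rw [norm_sub_rev y x] at h3
      -- `‖bl‖² = 1 / (1 + v)`
      set v := P / ‖x - y‖ ^ 2 with hv
      have hv0 : 0 < v := by positivity
      have hvκ : 1 + v ≤ κ := by
        rw [hκ, hv]
        have : P / ‖x - y‖ ^ 2 ≤ 4 * (C' * (C' + 1)) := by
          rw [div_le_iff₀ (by positivity)]
          exact hP5
        linarith
      have hbl : ‖bl y x‖ ^ 2 = (1 + v)⁻¹ := by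
        rw [norm_bl_sq (one_sub_ne hy1 hx1.le), ← hP, hv, h3]
        field_simp
        ring
      have h6 : Real.exp (-v) ≤ (1 + v)⁻¹ := by
        rw [Real.exp_neg]
        apply inv_anti₀ (by positivity)
        linarith [Real.add_one_le_exp v]
      rw [hbl]
      refine le_trans (Real.exp_le_exp.2 ?_) h6
      have h7 : v ≤ κ * (P / ‖1 - (starRingEnd ℂ) y * x‖ ^ 2) := by
        have h8 : v = (1 + v) * (P / ‖1 - (starRingEnd ℂ) y * x‖ ^ 2) := by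
          rw [hv, h3]
          field_simp
        calc v = (1 + v) * (P / ‖1 - (starRingEnd ℂ) y * x‖ ^ 2) := h8
          _ ≤ _ := by gcongr
      have h9 : κ * (P / ‖1 - (starRingEnd ℂ) y * x‖ ^ 2) ≤ κ * (4 * ((1 - ‖x‖) *
          ((1 - ‖y‖) / ‖1 - (starRingEnd ℂ) y * x‖ ^ 2))) := by
        gcongr
        rw [← mul_div_assoc, ← mul_div_assoc]
        gcongr
      linarith
    calc Real.exp (-(4 * κ * K)) ≤ Real.exp (∑ y ∈ S, -(κ * (4 * ((1 - ‖x‖) * ((1 - ‖y‖) /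
        ‖1 - (starRingEnd ℂ) y * x‖ ^ 2))))) := by
          apply Real.exp_le_exp.2
          rw [Finset.sum_neg_distrib]
          apply neg_le_neg
          rw [← Finset.mul_sum, ← Finset.mul_sum, ← Finset.mul_sum]
          have h2 : ∑ y ∈ S, ((1 - ‖y‖) / ‖1 - (starRingEnd ℂ) y * x‖ ^ 2) ≤
              ∑ y ∈ X, ((1 - ‖y‖) / ‖1 - (starRingEnd ℂ) y * x‖ ^ 2) := by
            refine Finset.sum_le_sum_of_subset_of_nonneg hS fun y hy _ => ?_
            have := hX1 y hy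
            have h3 : 0 ≤ 1 - ‖y‖ := by linarith
            positivity
          calc κ * (4 * ((1 - ‖x‖) * ∑ y ∈ S, ((1 - ‖y‖) / ‖1 - (starRingEnd ℂ) y * x‖ ^ 2))) ≤
                κ * (4 * ((1 - ‖x‖) * ∑ y ∈ X,
                  ((1 - ‖y‖) / ‖1 - (starRingEnd ℂ) y * x‖ ^ 2))) := by gcongr
            _ ≤ κ * (4 * K) := by gcongr
            _ = 4 * κ * K := by ring
      _ = ∏ y ∈ S, Real.exp (-(κ * (4 * ((1 - ‖x‖) * ((1 - ‖y‖) /
        ‖1 - (starRingEnd ℂ) y * x‖ ^ 2))))) := by rw [Real.exp_sum]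
      _ ≤ _ := Finset.prod_le_prod (fun y _ => (Real.exp_pos _).le) h2
  have h2 : Real.exp (-(4 * κ * K)) = Real.exp (-(2 * κ * K)) ^ 2 := by
    rw [← Real.exp_nat_mul]
    congr 1
    push_cast
    ring
  rw [h2] at h1
  exact le_of_sq_le_sq h1 (norm_nonneg _)

/-- The basic step. -/
theorem basic_step {c : ℝ} (hc : 0 < c) (C : ℝ) : ∃ c1 K : ℝ, 0 < c1 ∧ c1 ≤ 1 / 48 ∧ 0 < K ∧
    ∀ X : Finset ℂ, X.Nonempty → (∀ x ∈ X, ‖x‖ < 1) → KC c X → Sep C X →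
    ∀ Y ⊆ X, ∀ L : ℝ, 0 ≤ L → ∀ lam : ℂ → ℂ,
      (∀ x ∈ Y, ‖lam x‖ ≤ L * ((1 - ‖x‖) * ‖∏ y ∈ Y.erase x, bl y x‖)) →
      ∃ f : ℂ → ℂ, (∀ z0 : ℂ, ‖z0‖ ≤ 1 → DifferentiableOn ℂ f (ball z0 (c1 * tau X z0)) ∧
        ∀ z ∈ ball z0 (c1 * tau X z0), ‖f z‖ ≤ K * L * tau X z0) ∧ ∀ x ∈ Y, f x = lam x := by
  classical
  obtain ⟨c1, CG, hc1, hc1', hCG, hkern⟩ := exists_kernel hc
  obtain ⟨K, hK0, hW⟩ := carleson_sum hc C
  refine ⟨c1, 256 * Real.exp (K / 4) * CG ^ 4 * K, hc1, hc1', by positivity, ?_⟩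
  intro X hX hX1 hKC hS Y hY L hL lam hlam
  obtain ⟨G, hG⟩ := hkern X hX hX1 hKC
  set Bp : ℂ → ℂ → ℂ := fun x z => ∏ y ∈ Y.erase x, bl y z with hBp
  have hGx : ∀ z0 : ℂ, ‖z0‖ ≤ 1 → ∀ z ∈ ball z0 (c1 * tau X z0), G z ≠ 0 := by
    intro z0 hz0 z hz h0
    have := ((hG z0 hz0).2 z hz).1
    rw [h0, norm_zero, mul_zero] at this
    have h1 : 0 < CG⁻¹ := by positivity
    linarith
  have hself : ∀ z0 : ℂ, z0 ∈ ball z0 (c1 * tau X z0) := fun z0 => by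
    apply mem_ball_self
    have := tau_pos hX hX1 z0
    positivity
  refine ⟨fun z => ∑ x ∈ Y, lam x * (Bp x z / Bp x x) * (G x / G z) ^ 2 *
    ((1 - (starRingEnd ℂ) x * x) / (1 - (starRingEnd ℂ) x * z)) ^ 4, ?_, ?_⟩
  · intro z0 hz0
    have hτ0 := tau_pos hX hX1 z0
    have hτ3 := tau_le_three hX hX1 z0
    have hball : ∀ z ∈ ball z0 (c1 * tau X z0), 48 * ‖z - z0‖ ≤ tau X z0 := by
      intro z hz
      rw [mem_ball, dist_eq_norm] at hz
      nlinarith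
    have hne : ∀ z ∈ ball z0 (c1 * tau X z0), ∀ x ∈ X, 1 - (starRingEnd ℂ) x * z ≠ 0 := by
      intro z hz x hx
      have h1 := half_le hx (hX1 x hx) hz0 (hball z hz)
      have h2 := one_sub_norm_le (x := x) hz0
      have := hX1 x hx
      exact norm_pos_iff.1 (by linarith)
    constructor
    · refine DifferentiableOn.fun_sum fun x hx => ?_
      refine DifferentiableOn.mul (DifferentiableOn.mul (DifferentiableOn.mul
        (differentiableOn_const _) (DifferentiableOn.div_const ?_ _)) (DifferentiableOn.pow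
          (DifferentiableOn.div (differentiableOn_const _) (hG z0 hz0).1 (hGx z0 hz0)) 2))
          (DifferentiableOn.pow (DifferentiableOn.div (differentiableOn_const _) ?_
            (fun z hz => hne z hz x (hY hx))) 4)
      · rw [hBp]
        refine DifferentiableOn.fun_finsetProd fun y hy => ?_
        unfold bl
        refine DifferentiableOn.div (by fun_prop) (by fun_prop)
          (fun z hz => hne z hz y (hY (Finset.mem_of_mem_erase hy)))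
      · fun_prop
    · intro z hz
      have hzz := hball z hz
      have hterm : ∀ x ∈ Y, ‖lam x * (Bp x z / Bp x x) * (G x / G z) ^ 2 *
          ((1 - (starRingEnd ℂ) x * x) / (1 - (starRingEnd ℂ) x * z)) ^ 4‖ ≤
          256 * Real.exp (K / 4) * CG ^ 4 * L * tau X z0 ^ 2 *
            ((1 - ‖x‖) / ‖1 - (starRingEnd ℂ) x * z0‖ ^ 2) := by
        intro x hx
        have hxX := hY hx
        have hx1 := hX1 x hxX
        have hδ : 0 < 1 - ‖x‖ := by linarith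
        have hnx := norm_nonneg x
        have hτx : tau X x = 1 - ‖x‖ := by
          unfold tau
          rw [infDist_zero_of_mem (by exact_mod_cast hxX), zero_add]
        -- the factors
        have hBx : Bp x x ≠ 0 := by
          rw [hBp]
          refine Finset.prod_ne_zero_iff.2 fun y hy => ?_
          unfold bl
          refine div_ne_zero (sub_ne_zero.2 (Finset.ne_of_mem_erase hy).symm)
            (one_sub_ne (hX1 y (hY (Finset.mem_of_mem_erase hy))) hx1.le)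
        have hBx0 : 0 < ‖Bp x x‖ := norm_pos_iff.2 hBx
        have hBz : ‖Bp x z‖ ≤ Real.exp (K / 4) :=
          prod_bl_le hX1 hz0 (hW X hX hX1 hKC hS z0 hz0) hzz hτ3
            ((Finset.erase_subset _ _).trans hY)
        have f1 : ‖lam x‖ * (‖Bp x z‖ / ‖Bp x x‖) ≤ L * (1 - ‖x‖) * Real.exp (K / 4) := by
          rw [← mul_div_assoc, div_le_iff₀ hBx0]
          calc ‖lam x‖ * ‖Bp x z‖ ≤ (L * ((1 - ‖x‖) * ‖Bp x x‖)) * Real.exp (K / 4) := by
                gcongr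
                exact hlam x hx
            _ = _ := by ring
        have hGz := (hG z0 hz0).2 z hz
        have hGxx := (hG x hx1.le).2 x (hself x)
        rw [hτx] at hGxx
        have hGz0 : 0 < ‖G z‖ := norm_pos_iff.2 (hGx z0 hz0 z hz)
        have f2 : ‖G x‖ / ‖G z‖ ≤ CG ^ 2 * tau X z0 / (1 - ‖x‖) := by
          rw [div_le_div_iff₀ hGz0 hδ]
          have h1 : 1 ≤ CG * (tau X z0 * ‖G z‖) := by
            rw [← inv_le_iff_one_le_mul₀' (by positivity)]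
            exact hGz.1
          calc ‖G x‖ * (1 - ‖x‖) = ((1 - ‖x‖) * ‖G x‖) * 1 := by ring
            _ ≤ CG * (CG * (tau X z0 * ‖G z‖)) := by
                gcongr
                exact hGxx.2
            _ = _ := by ring
        have hA := half_le hxX hx1 hz0 hzz
        have hA0 : 0 < ‖1 - (starRingEnd ℂ) x * z0‖ := norm_pos_iff.2 (one_sub_ne hx1 hz0)
        have hAz : 0 < ‖1 - (starRingEnd ℂ) x * z‖ := by linarith
        have f3 : ‖1 - (starRingEnd ℂ) x * x‖ / ‖1 - (starRingEnd ℂ) x * z‖ ≤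
            4 * (1 - ‖x‖) / ‖1 - (starRingEnd ℂ) x * z0‖ := by
          have h1 : ‖1 - (starRingEnd ℂ) x * x‖ = 1 - ‖x‖ ^ 2 := by
            have : 1 - (starRingEnd ℂ) x * x = ((1 - ‖x‖ ^ 2 : ℝ) : ℂ) := by
              rw [mul_comm, Complex.mul_conj, Complex.normSq_eq_norm_sq]
              push_cast
              ring
            rw [this, Complex.norm_real, Real.norm_eq_abs, abs_of_nonneg (by nlinarith)]
          rw [h1, div_le_div_iff₀ hAz hA0]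
          have h2 : 1 - ‖x‖ ^ 2 ≤ 2 * (1 - ‖x‖) := by nlinarith
          calc (1 - ‖x‖ ^ 2) * ‖1 - (starRingEnd ℂ) x * z0‖ ≤
                (2 * (1 - ‖x‖)) * (2 * ‖1 - (starRingEnd ℂ) x * z‖) := by gcongr
            _ = _ := by ring
        have hδA := one_sub_norm_le (x := x) hz0
        rw [norm_mul, norm_mul, norm_mul, norm_div, norm_pow, norm_pow, norm_div, norm_div]
        calc ‖lam x‖ * (‖Bp x z‖ / ‖Bp x x‖) * (‖G x‖ / ‖G z‖) ^ 2 *
              (‖1 - (starRingEnd ℂ) x * x‖ / ‖1 - (starRingEnd ℂ) x * z‖) ^ 4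
            ≤ (L * (1 - ‖x‖) * Real.exp (K / 4)) * (CG ^ 2 * tau X z0 / (1 - ‖x‖)) ^ 2 *
              (4 * (1 - ‖x‖) / ‖1 - (starRingEnd ℂ) x * z0‖) ^ 4 := by gcongr
          _ = 256 * Real.exp (K / 4) * CG ^ 4 * L * tau X z0 ^ 2 *
              ((1 - ‖x‖) / ‖1 - (starRingEnd ℂ) x * z0‖ ^ 2 *
              ((1 - ‖x‖) / ‖1 - (starRingEnd ℂ) x * z0‖) ^ 2) := by
              field_simp
              ring
          _ ≤ 256 * Real.exp (K / 4) * CG ^ 4 * L * tau X z0 ^ 2 *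
              ((1 - ‖x‖) / ‖1 - (starRingEnd ℂ) x * z0‖ ^ 2 * 1) := by
              gcongr
              exact pow_le_one₀ (by positivity) ((div_le_one hA0).2 hδA)
          _ = _ := by ring
      refine (norm_sum_le _ _).trans ((Finset.sum_le_sum hterm).trans ?_)
      rw [← Finset.mul_sum]
      have h2 : ∑ x ∈ Y, ((1 - ‖x‖) / ‖1 - (starRingEnd ℂ) x * z0‖ ^ 2) ≤
          ∑ x ∈ X, ((1 - ‖x‖) / ‖1 - (starRingEnd ℂ) x * z0‖ ^ 2) := by
        refine Finset.sum_le_sum_of_subset_of_nonneg hY fun y hy _ => ?_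
        have := hX1 y hy
        have h3 : 0 ≤ 1 - ‖y‖ := by linarith
        positivity
      have h3 := hW X hX hX1 hKC hS z0 hz0
      calc 256 * Real.exp (K / 4) * CG ^ 4 * L * tau X z0 ^ 2 *
            ∑ x ∈ Y, ((1 - ‖x‖) / ‖1 - (starRingEnd ℂ) x * z0‖ ^ 2)
          ≤ 256 * Real.exp (K / 4) * CG ^ 4 * L * tau X z0 ^ 2 *
            ∑ x ∈ X, ((1 - ‖x‖) / ‖1 - (starRingEnd ℂ) x * z0‖ ^ 2) := by gcongr
        _ = 256 * Real.exp (K / 4) * CG ^ 4 * L * tau X z0 * (tau X z0 *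
            ∑ x ∈ X, ((1 - ‖x‖) / ‖1 - (starRingEnd ℂ) x * z0‖ ^ 2)) := by ring
        _ ≤ 256 * Real.exp (K / 4) * CG ^ 4 * L * tau X z0 * K := by gcongr
        _ = _ := by ring
  · intro x hx
    have hx1 := hX1 x (hY hx)
    beta_reduce
    rw [Finset.sum_eq_single x]
    · have hBx : Bp x x ≠ 0 := by
        rw [hBp]
        refine Finset.prod_ne_zero_iff.2 fun y hy => ?_
        unfold bl
        refine div_ne_zero (sub_ne_zero.2 (Finset.ne_of_mem_erase hy).symm)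
          (one_sub_ne (hX1 y (hY (Finset.mem_of_mem_erase hy))) hx1.le)
      rw [div_self hBx, div_self (hGx x hx1.le x (hself x)), div_self (one_sub_ne hx1 hx1.le)]
      ring
    · intro y hy hyx
      have : Bp y x = 0 := by
        rw [hBp]
        refine Finset.prod_eq_zero (i := x) (Finset.mem_erase.2 ⟨hyx.symm, hx⟩) ?_
        unfold bl
        rw [sub_self, zero_div]
      rw [this]
      ring
    · intro h
      exact absurd hx h

end Pool.Agent.H85.ZI
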