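import Mathlib
import Pool.Agent.H82.Zyg.Defs
import Pool.Agent.H85.ZI.Step

/-!
# MP_425ce8_an, step (d): interior interpolation
-/

namespace Pool.Agent.H85.ZI

open Complex Metric Set Finset

/-- A maximal separated subset, and the partners of the other points. -/
lemma exists_reps {C e : ℝ} (hC : 1 ≤ C) (he : 0 < e) (he1 : 4 * e * C ≤ 1) {X : Finset ℂ}
    (hX1 : ∀ x ∈ X, ‖x‖ < 1) (hS : Sep C X) :
    ∃ X1 ⊆ X, (∀ x ∈ X1, ∀ y ∈ X1, x ≠ y → 1 - ‖x‖ ≤ e⁻¹ * ‖x - y‖) ∧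
      ∀ y ∈ X, y ∉ X1 → ∃ s ∈ X1, ‖s - y‖ ≤ 2 * e * (1 - ‖y‖) ∧
        ∀ x ∈ X, x ≠ y → x ≠ s → 1 - ‖y‖ ≤ C * ‖y - x‖ := by
  classical
  have he2 : e ≤ 1 / 4 := by nlinarith
  set P : Finset (Finset ℂ) := X.powerset.filter
    (fun T => ∀ x ∈ T, ∀ y ∈ T, x ≠ y → 1 - ‖x‖ ≤ e⁻¹ * ‖x - y‖) with hP
  have hPne : P.Nonempty := ⟨∅, by simp [hP]⟩
  obtain ⟨X1, hX1P, hmax⟩ := P.exists_max_image Finset.card hPne
  rw [hP, Finset.mem_filter, Finset.mem_powerset] at hX1P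
  refine ⟨X1, hX1P.1, hX1P.2, ?_⟩
  intro y hy hyX1
  have hy1 := hX1 y hy
  -- maximality
  have hins : ¬ (∀ x ∈ insert y X1, ∀ x' ∈ insert y X1, x ≠ x' → 1 - ‖x‖ ≤ e⁻¹ * ‖x - x'‖) := by
    intro hcon
    have h1 : insert y X1 ∈ P := by
      rw [hP, Finset.mem_filter, Finset.mem_powerset]
      exact ⟨Finset.insert_subset hy hX1P.1, hcon⟩
    have h2 := hmax _ h1
    rw [Finset.card_insert_of_notMem hyX1] at h2
    omega
  have hclose : ∃ s ∈ X1, ‖s - y‖ ≤ 2 * e * (1 - ‖y‖) ∧ s ≠ y := by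
    by_contra hcon
    push_neg at hcon
    apply hins
    have key : ∀ s ∈ X1, 1 - ‖s‖ ≤ e⁻¹ * ‖s - y‖ ∧ 1 - ‖y‖ ≤ e⁻¹ * ‖s - y‖ := by
      intro s hs
      have hsy : s ≠ y := fun h => hyX1 (h ▸ hs)
      have h1 : 2 * e * (1 - ‖y‖) < ‖s - y‖ := by
        by_contra h
        exact hsy (hcon s hs (not_lt.1 h))
      have hd : 0 ≤ 1 - ‖y‖ := by linarith
      have h2 : 1 - ‖s‖ ≤ (1 - ‖y‖) + ‖s - y‖ := by
        have := norm_sub_norm_le y s
        rw [norm_sub_rev] at this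
        linarith
      have hn := norm_nonneg (s - y)
      constructor
      · rw [← div_eq_inv_mul, le_div_iff₀ he]
        nlinarith
      · rw [← div_eq_inv_mul, le_div_iff₀ he]
        nlinarith
    intro x hx x' hx' hxx'
    rw [Finset.mem_insert] at hx hx'
    rcases hx with rfl | hx
    · rcases hx' with rfl | hx'
      · exact absurd rfl hxx'
      · rw [norm_sub_rev]
        exact (key x' hx').2
    · rcases hx' with rfl | hx'
      · exact (key x hx).1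
      · exact hX1P.2 x hx x' hx' hxx'
  obtain ⟨s, hs, hsy, hsne⟩ := hclose
  refine ⟨s, hs, hsy, ?_⟩
  intro x hx hxy hxs
  have h1 := hS y hy s (hX1P.1 hs) x hx hsne.symm hxs.symm hxy.symm
  have hd : 0 < 1 - ‖y‖ := by linarith
  rcases le_total ‖y - s‖ ‖y - x‖ with h | h
  · rwa [max_eq_right h] at h1
  · rw [max_eq_left h] at h1
    rw [norm_sub_rev] at hsy
    exfalso
    have : C * ‖y - s‖ ≤ C * (2 * e * (1 - ‖y‖)) := by gcongr
    nlinarith

theorem inner_interp' {c : ℝ} (hc : 0 < c) (C0 : ℝ) : ∃ K : ℝ, ∀ X : Finset ℂ,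
    (∀ x ∈ X, ‖x‖ < 1) → KC c X → Sep C0 X →
    ∀ ψ : ℂ → ℂ, (∀ x ∈ X, ‖ψ x‖ ≤ 1 - ‖x‖) → (∀ x ∈ X, ∀ y ∈ X, ‖ψ x - ψ y‖ ≤ ‖x - y‖) →
    ∃ f : ℂ → ℂ, DifferentiableOn ℂ f (ball 0 1) ∧
      (∀ z ∈ ball (0 : ℂ) 1, ‖deriv (deriv f) z‖ ≤ K / (1 - ‖z‖)) ∧
      ‖f 0‖ ≤ K ∧ ‖deriv f 0‖ ≤ K ∧ ∀ x ∈ X, f x = ψ x := by
  classical
  set C : ℝ := max C0 1 with hC
  have hC1 : 1 ≤ C := le_max_right _ _
  obtain ⟨KW, hKW0, hW⟩ := carleson_sum hc C
  obtain ⟨c1, K1, hc1, hc1', hK1, hstep⟩ := basic_step hc C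
  set e : ℝ := min (1 / (4 * C)) (c1 / 4) with he
  have he0 : 0 < e := lt_min (by positivity) (by positivity)
  have heC : 4 * e * C ≤ 1 := by
    have : e ≤ 1 / (4 * C) := min_le_left _ _
    rw [le_div_iff₀ (by positivity)] at this
    linarith
  have hec : 4 * e ≤ c1 := by
    have : e ≤ c1 / 4 := min_le_right _ _
    linarith
  set C' : ℝ := max C e⁻¹ with hC'
  have hC'1 : 1 ≤ C' := hC1.trans (le_max_left _ _)
  set L1 : ℝ := Real.exp (2 * (1 + 4 * (C' * (C' + 1))) * KW) with hL1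
  have hL1p : 0 < L1 := Real.exp_pos _
  have hL1i : Real.exp (-(2 * (1 + 4 * (C' * (C' + 1))) * KW)) = L1⁻¹ := by
    rw [hL1, Real.exp_neg]
  set A1 : ℝ := 2 * (K1 * L1) / c1 with hA1
  set L2 : ℝ := 3 * L1 * (1 + A1) with hL2
  have hA1p : 0 < A1 := by positivity
  have hL2p : 0 < L2 := by positivity
  set K : ℝ := K1 * L1 + K1 * L2 with hK
  have hKp : 0 < K := by positivity
  refine ⟨8 * K / c1 ^ 2, ?_⟩
  intro X hX1 hKC hS0 ψ hψ1 hψ2
  rcases X.eq_empty_or_nonempty with hXe | hXne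
  · refine ⟨fun _ => 0, differentiableOn_const _, ?_, ?_, ?_, ?_⟩
    · intro z hz
      rw [mem_ball, dist_zero_right] at hz
      have : 0 < 1 - ‖z‖ := by linarith
      simp only [deriv_const', deriv_const, norm_zero]
      positivity
    · simp only [norm_zero]; positivity
    · simp only [deriv_const, norm_zero]; positivity
    · intro x hx; rw [hXe] at hx; simp at hx
  have hS : Sep C X := by
    intro x hx y hy z hz hxy hyz hxz
    refine (hS0 x hx y hy z hz hxy hyz hxz).trans ?_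
    have : 0 ≤ max ‖x - y‖ ‖x - z‖ := le_max_of_le_left (norm_nonneg _)
    gcongr
    exact le_max_left _ _
  obtain ⟨X1, hX1X, hsep, hpart⟩ := exists_reps hC1 he0 heC hX1 hS
  have hτx : ∀ x ∈ X, tau X x = 1 - ‖x‖ := by
    intro x hx
    unfold tau
    rw [infDist_zero_of_mem (by exact_mod_cast hx), zero_add]
  -- the first function
  obtain ⟨f1, hf1, hf1X⟩ := hstep X hXne hX1 hKC hS X1 hX1X L1 hL1p.le ψ (by
    intro x hx
    have hxX := hX1X hx
    have hx1 := hX1 x hxX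
    have h1 := le_prod_bl hC'1 hX1 hxX (hW X hXne hX1 hKC hS x hx1.le)
      (S := X1.erase x) ((Finset.erase_subset _ _).trans hX1X) (by
        intro y hy
        rw [Finset.mem_erase] at hy
        refine (hsep x hx y hy.2 hy.1.symm).trans ?_
        have := norm_nonneg (x - y)
        gcongr
        exact le_max_right _ _)
    rw [hL1i] at h1
    have hd : 0 < 1 - ‖x‖ := by linarith
    calc ‖ψ x‖ ≤ 1 - ‖x‖ := hψ1 x hxX
      _ = L1 * ((1 - ‖x‖) * L1⁻¹) := by field_simp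
      _ ≤ _ := by gcongr)
  -- the second function
  set lam : ℂ → ℂ := fun y => if y ∈ X1 then 0 else ψ y - f1 y with hlam
  obtain ⟨f2, hf2, hf2X⟩ := hstep X hXne hX1 hKC hS X (Finset.Subset.refl _) L2 hL2p.le lam (by
    intro y hy
    have hy1 := hX1 y hy
    have hd : 0 < 1 - ‖y‖ := by linarith
    have hny := norm_nonneg y
    by_cases hyX1 : y ∈ X1
    · rw [hlam]
      beta_reduce
      rw [if_pos hyX1, norm_zero]
      positivity
    · rw [hlam]
      beta_reduce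
      rw [if_neg hyX1]
      obtain ⟨s, hs, hsy, hother⟩ := hpart y hy hyX1
      have hsX := hX1X hs
      have hs1 := hX1 s hsX
      have hns := norm_nonneg s
      have hsne : s ≠ y := fun h => hyX1 (h ▸ hs)
      have hsy0 : 0 < ‖s - y‖ := norm_pos_iff.2 (sub_ne_zero.2 hsne)
      -- Lipschitz bound
      have hr : s ∈ ball y (c1 * tau X y) := by
        rw [mem_ball, dist_eq_norm, hτx y hy]
        calc ‖s - y‖ ≤ 2 * e * (1 - ‖y‖) := hsy
          _ < c1 * (1 - ‖y‖) := by nlinarith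
      have h1 := Complex.dist_le_div_mul_dist_of_mapsTo_ball (R₂ := 2 * (K1 * L1 * (1 - ‖y‖)))
        (hf1 y hy1.le).1 (by
          intro z hz
          have h2 := (hf1 y hy1.le).2 z hz
          have h3 := (hf1 y hy1.le).2 y (mem_ball_self (by rw [hτx y hy]; positivity))
          rw [hτx y hy] at h2 h3
          rw [mem_closedBall, dist_eq_norm]
          refine (norm_sub_le _ _).trans ?_
          linarith) hr
      rw [dist_eq_norm, dist_eq_norm, hτx y hy] at h1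
      have h2 : ‖f1 s - f1 y‖ ≤ A1 * ‖s - y‖ := by
        refine h1.trans (le_of_eq ?_)
        rw [hA1]
        field_simp
      have h3 : ‖ψ y - f1 y‖ ≤ (1 + A1) * ‖s - y‖ := by
        have h4 : ψ y - f1 y = (ψ y - ψ s) + (f1 s - f1 y) := by rw [hf1X s hs]; ring
        rw [h4]
        refine (norm_add_le _ _).trans ?_
        have h5 := hψ2 y hy s hsX
        rw [norm_sub_rev y s] at h5
        linarith
      -- the product
      have hsmem : s ∈ X.erase y := Finset.mem_erase.2 ⟨hsne, hsX⟩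
      rw [← Finset.mul_prod_erase _ _ hsmem, norm_mul]
      have h5 := le_prod_bl hC'1 hX1 hy (hW X hXne hX1 hKC hS y hy1.le)
        (S := (X.erase y).erase s) ((Finset.erase_subset _ _).trans (Finset.erase_subset _ _)) (by
          intro x hx
          rw [Finset.mem_erase, Finset.mem_erase] at hx
          refine (hother x hx.2.2 hx.2.1 hx.1).trans ?_
          have := norm_nonneg (y - x)
          gcongr
          exact le_max_left _ _)
      rw [hL1i] at h5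
      have h6 : ‖s - y‖ / (3 * (1 - ‖y‖)) ≤ ‖bl s y‖ := by
        rw [bl, norm_div, norm_sub_rev y s]
        have h7 : 0 < ‖1 - (starRingEnd ℂ) s * y‖ := norm_pos_iff.2 (one_sub_ne hs1 hy1.le)
        apply div_le_div_of_nonneg_left hsy0.le h7
        have h8 : 1 - (starRingEnd ℂ) s * y = ((1 - ‖y‖ ^ 2 : ℝ) : ℂ) -
            (starRingEnd ℂ) (s - y) * y := by
          rw [map_sub, sub_mul, mul_comm ((starRingEnd ℂ) y) y, Complex.mul_conj,
            Complex.normSq_eq_norm_sq]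
          push_cast
          ring
        rw [h8]
        refine (norm_sub_le _ _).trans ?_
        rw [Complex.norm_real, Real.norm_eq_abs, abs_of_nonneg (by nlinarith), norm_mul,
          RCLike.norm_conj]
        have h9 : ‖s - y‖ * ‖y‖ ≤ ‖s - y‖ := by nlinarith
        have h10 : ‖s - y‖ ≤ 1 - ‖y‖ := by nlinarith
        nlinarith
      calc ‖ψ y - f1 y‖ ≤ (1 + A1) * ‖s - y‖ := h3
        _ = L2 * ((1 - ‖y‖) * (‖s - y‖ / (3 * (1 - ‖y‖)) * L1⁻¹)) := by
            rw [hL2]; field_simp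
        _ ≤ _ := by gcongr)
  -- the sum
  have hf : ∀ z0 : ℂ, ‖z0‖ ≤ 1 → DifferentiableOn ℂ (fun z => f1 z + f2 z)
      (ball z0 (c1 * tau X z0)) ∧ ∀ z ∈ ball z0 (c1 * tau X z0),
        ‖f1 z + f2 z‖ ≤ K * tau X z0 := by
    intro z0 hz0
    refine ⟨(hf1 z0 hz0).1.add (hf2 z0 hz0).1, fun z hz => ?_⟩
    refine (norm_add_le _ _).trans ?_
    have h1 := (hf1 z0 hz0).2 z hz
    have h2 := (hf2 z0 hz0).2 z hz
    rw [hK]
    linarith
  have hcl : ∀ z0 : ℂ, ‖z0‖ ≤ 1 → closedBall z0 (c1 * tau X z0 / 2) ⊆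
      ball z0 (c1 * tau X z0) := by
    intro z0 _
    apply closedBall_subset_ball
    have := tau_pos hXne hX1 z0
    have : 0 < c1 * tau X z0 := by positivity
    linarith
  have hDC : ∀ z0 : ℂ, ‖z0‖ ≤ 1 → DiffContOnCl ℂ (fun z => f1 z + f2 z)
      (ball z0 (c1 * tau X z0 / 2)) := by
    intro z0 hz0
    apply DifferentiableOn.diffContOnCl
    refine (hf z0 hz0).1.mono ?_
    exact (closure_ball_subset_closedBall).trans (hcl z0 hz0)
  have hsph : ∀ z0 : ℂ, ‖z0‖ ≤ 1 → ∀ z ∈ sphere z0 (c1 * tau X z0 / 2),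
      ‖f1 z + f2 z‖ ≤ K * tau X z0 := fun z0 hz0 z hz =>
    (hf z0 hz0).2 z (hcl z0 hz0 (sphere_subset_closedBall hz))
  refine ⟨fun z => f1 z + f2 z, ?_, ?_, ?_, ?_, ?_⟩
  · intro z hz
    rw [mem_ball, dist_zero_right] at hz
    have hτ := tau_pos hXne hX1 z
    exact ((hf z hz.le).1.differentiableAt (ball_mem_nhds _ (by positivity))).differentiableWithinAt
  · intro z hz
    rw [mem_ball, dist_zero_right] at hz
    have hτ := tau_pos hXne hX1 z
    have h1 := Complex.norm_iteratedDeriv_le_of_forall_mem_sphere_norm_le 2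
      (by positivity : 0 < c1 * tau X z / 2) (hDC z hz.le) (hsph z hz.le)
    rw [iteratedDeriv_succ, iteratedDeriv_one] at h1
    refine h1.trans ?_
    have h2 : 1 - ‖z‖ ≤ tau X z := by unfold tau; linarith [infDist_nonneg (x := z) (s := (X : Set ℂ))]
    have h3 : 0 < 1 - ‖z‖ := by linarith
    calc ((Nat.factorial 2 : ℕ) : ℝ) * (K * tau X z) / (c1 * tau X z / 2) ^ 2 =
          8 * K / c1 ^ 2 / tau X z := by
            simp only [Nat.factorial]
            push_cast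
            field_simp
            ring
      _ ≤ _ := by gcongr
  · have h1 := (hf 0 (by simp)).2 0 (mem_ball_self (by
      have := tau_pos hXne hX1 0
      positivity))
    refine h1.trans ?_
    have h3 := tau_le_three hXne hX1 0
    rw [le_div_iff₀ (by positivity)]
    have h4 : c1 ^ 2 ≤ 1 := by nlinarith
    have : 0 < tau X 0 := tau_pos hXne hX1 0
    calc K * tau X 0 * c1 ^ 2 ≤ K * 3 * 1 := by gcongr
      _ ≤ 8 * K := by linarith
  · have hτ := tau_pos hXne hX1 0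
    have h1 := Complex.norm_deriv_le_of_forall_mem_sphere_norm_le
      (by positivity : 0 < c1 * tau X 0 / 2) (hDC 0 (by simp)) (hsph 0 (by simp))
    refine h1.trans ?_
    have h4 : c1 ≤ 1 := by linarith
    have h5 : K * tau X 0 / (c1 * tau X 0 / 2) = 2 * K / c1 := by field_simp
    rw [h5, div_le_div_iff₀ hc1 (by positivity)]
    have : 0 < K * c1 := by positivity
    nlinarith
  · intro x hx
    beta_reduce
    rw [hf2X x hx, hlam]
    beta_reduce
    by_cases hxX1 : x ∈ X1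
    · rw [if_pos hxX1, hf1X x hxX1, add_zero]
    · rw [if_neg hxX1]
      ring

end Pool.Agent.H85.ZI

namespace Pool.Agent.H82.Zyg

open Complex Metric Set

/-- Step (d): interior interpolation. -/
theorem inner_interp (c C : ℝ) (hc : 0 < c) : ∃ K : ℝ, ∀ X : Finset ℂ,
    (∀ x ∈ X, ‖x‖ < 1) → KCond c X →
    (∀ x ∈ X, ∀ y ∈ X, ∀ z ∈ X, x ≠ y → y ≠ z → x ≠ z → 1 - ‖x‖ ≤ C * max ‖x - y‖ ‖x - z‖) →
    ∀ ψ : ℂ → ℂ, (∀ x ∈ X, ‖ψ x‖ ≤ 1 - ‖x‖) → (∀ x ∈ X, ∀ y ∈ X, ‖ψ x - ψ y‖ ≤ ‖x - y‖) →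
    ∃ f : ℂ → ℂ, DifferentiableOn ℂ f (ball 0 1) ∧
      (∀ z ∈ ball (0 : ℂ) 1, ‖deriv (deriv f) z‖ ≤ K / (1 - ‖z‖)) ∧
      ‖f 0‖ ≤ K ∧ ‖deriv f 0‖ ≤ K ∧ ∀ x ∈ X, f x = ψ x := by
  obtain ⟨K, hK⟩ := Pool.Agent.H85.ZI.inner_interp' hc C
  refine ⟨K, fun X hX1 hKC hS ψ h1 h2 => hK X hX1 ?_ hS ψ h1 h2⟩
  intro a b hab hab2
  obtain ⟨t, ht, htX⟩ := hKC a b hab hab2
  exact ⟨t, ht, fun x hx => htX x (by exact_mod_cast hx)⟩

end Pool.Agent.H82.Zyg
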